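import Pool.Agent.H85.SelIndepDefs
import Pool.Agent.Lib.Helper88.CpDefs

/-!
# Martin's axiom implies `ℵ₁ < 𝔟`
-/

set_option autoImplicit false

open Set Function Cardinal Filter

namespace Pool.Agent.H30C

open Pool.Agent.H85.Sel Helper88.CpTheory

/-- Hechler conditions for a family `S` of functions: a stem and a finite subset of `S`. -/
structure HP (S : Set (ℕ → ℕ)) where
  st : List ℕ
  F : Finset S

instance (S : Set (ℕ → ℕ)) : Preorder (HP S) where
  le q p := p.st <+: q.st ∧ p.F ⊆ q.F ∧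
    ∀ j, p.st.length ≤ j → ∀ h : j < q.st.length, ∀ f ∈ p.F, f.1 j ≤ q.st[j]
  le_refl p := ⟨List.prefix_refl _, Finset.Subset.refl _, fun j h h' => absurd h (not_le.2 h')⟩
  le_trans r q p h h' := by
    refine ⟨h'.1.trans h.1, h'.2.1.trans h.2.1, fun j hj hj' f hf => ?_⟩
    by_cases hq : j < q.st.length
    · have h1 := h'.2.2 j hj hq f hf
      obtain ⟨t, ht⟩ := h.1
      have h2 : r.st[j] = q.st[j] := by
        simp only [← ht]
        exact List.getElem_append_left hq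
      rw [h2]
      exact h1
    · exact h.2.2 j (not_lt.1 hq) hj' f (h'.2.1 hf)

theorem HP.le_def {S : Set (ℕ → ℕ)} (q p : HP S) : q ≤ p ↔ p.st <+: q.st ∧ p.F ⊆ q.F ∧
    ∀ j, p.st.length ≤ j → ∀ h : j < q.st.length, ∀ f ∈ p.F, f.1 j ≤ q.st[j] := Iff.rfl

theorem HP.ccc (S : Set (ℕ → ℕ)) : PosetCCC (HP S) := by
  classical
  intro A hA
  refine Set.countable_of_injective_of_countable_image (f := fun p : HP S => p.st) ?_
    (Set.to_countable _)
  intro p hp q hq hpq
  by_contra hne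
  refine hA hp hq hne ⟨⟨p.st, p.F ∪ q.F⟩, ?_, ?_⟩
  · rw [HP.le_def]
    exact ⟨List.prefix_refl _, Finset.subset_union_left, fun j h h' => absurd h (not_le.2 h')⟩
  · rw [HP.le_def]
    have hpq' : p.st = q.st := hpq
    refine ⟨by rw [hpq'], Finset.subset_union_right, fun j h h' => ?_⟩
    change j < p.st.length at h'
    rw [hpq'] at h'
    exact absurd h (not_le.2 h')

/-- Under `MA_{ℵ₁}`, `ℵ₁` functions are bounded. -/
theorem bounded_of_ma (hMA : MartinAxiomAlephOne) (S : Set (ℕ → ℕ)) (hS : #S ≤ ℵ₁) :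
    ∃ g : ℕ → ℕ, ∀ f ∈ S, ∀ᶠ n in atTop, f n ≤ g n := by
  classical
  haveI : Nonempty (HP S) := ⟨⟨[], ∅⟩⟩
  have hI : #(S ⊕ ℕ) ≤ ℵ₁ := by
    rw [mk_sum]
    simp only [lift_id, lift_uzero]
    refine add_le_of_le (aleph0_le_aleph 1) hS ?_
    rw [mk_nat]
    exact aleph0_le_aleph 1
  let D : S ⊕ ℕ → Set (HP S) := fun i => match i with
    | Sum.inl f => {p | f ∈ p.F}
    | Sum.inr n => {p | n < p.st.length}
  have hstep : ∀ (p : HP S), ∃ q ≤ p, q.st.length = p.st.length + 1 := by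
    intro p
    refine ⟨⟨p.st ++ [p.F.sup fun f => f.1 p.st.length], p.F⟩, ?_, by simp⟩
    rw [HP.le_def]
    refine ⟨List.prefix_append _ _, Finset.Subset.refl _, fun j hj hj' f hf => ?_⟩
    have h1 : j = p.st.length := by
      simp at hj'
      omega
    subst h1
    simp only [List.getElem_concat_length]
    exact Finset.le_sup (f := fun f : S => f.1 p.st.length) hf
  have hD : ∀ i, ∀ p, ∃ q ∈ D i, q ≤ p := by
    intro i p
    rcases i with f | n
    · refine ⟨⟨p.st, insert f p.F⟩, Finset.mem_insert_self _ _, ?_⟩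
      rw [HP.le_def]
      exact ⟨List.prefix_refl _, Finset.subset_insert _ _, fun j h h' => absurd h (not_le.2 h')⟩
    · induction n with
      | zero =>
        obtain ⟨q, hq, h⟩ := hstep p
        refine ⟨q, ?_, hq⟩
        change 0 < q.st.length
        omega
      | succ n ih =>
        obtain ⟨q, hq, hqp⟩ := ih
        obtain ⟨r, hr, h⟩ := hstep q
        refine ⟨r, ?_, hr.trans hqp⟩
        change n < q.st.length at hq
        change n + 1 < r.st.length
        omega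
  obtain ⟨G, -, -, hdir, hG⟩ := hMA (HP S) (HP.ccc S) (S ⊕ ℕ) hI D hD
  have hst : ∀ n, ∃ p ∈ G, n < p.st.length := fun n => hG (Sum.inr n)
  choose P hP hPn using hst
  refine ⟨fun n => (P n).st[n]'(hPn n), fun f hf => ?_⟩
  obtain ⟨p, hp, hfp⟩ := hG (Sum.inl ⟨f, hf⟩)
  rw [eventually_atTop]
  refine ⟨p.st.length, fun n hn => ?_⟩
  obtain ⟨r, -, hr1, hr2⟩ := hdir p hp (P n) (hP n)
  have h1 : n < r.st.length := (hPn n).trans_le hr2.1.length_le
  have h2 := hr1.2.2 n hn h1 ⟨f, hf⟩ hfp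
  obtain ⟨t, ht⟩ := hr2.1
  have h3 : r.st[n] = (P n).st[n]'(hPn n) := by
    simp only [← ht]
    exact List.getElem_append_left (hPn n)
  exact h2.trans_eq h3

/-- `MA_{ℵ₁}` implies that the bounding number is larger than `ℵ₁`. -/
theorem bounding_of_ma (hMA : MartinAxiomAlephOne) : Cardinal.aleph 1 < boundingNumber := by
  have hne : {κ | ∃ S : Set (ℕ → ℕ), Cardinal.mk S = κ ∧
      ¬ ∃ g : ℕ → ℕ, ∀ f ∈ S, ∀ᶠ n in atTop, f n ≤ g n}.Nonempty := by
    refine ⟨_, univ, rfl, ?_⟩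
    rintro ⟨g, hg⟩
    have h1 := hg (fun n => g n + 1) (mem_univ _)
    obtain ⟨n, hn⟩ := h1.exists
    omega
  by_contra hcon
  rw [not_lt] at hcon
  obtain ⟨S, hS, hunb⟩ := csInf_mem hne
  refine hunb (bounded_of_ma hMA S ?_)
  rw [hS]
  exact hcon

end Pool.Agent.H30C
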