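import Pool.Agent.Lib.H5Z.BGap

/-!
# The Boolean-valued versions of Martin's axiom and diamond

`K` is (later) a well-order of type `ω₁`, `B` a complete Boolean algebra. A function `K → B` is the
characteristic function of a name of a subset of `K`.
-/

set_option autoImplicit false

open Set Function

namespace Pool.Agent.H30C

open Pool.Agent.H5Z

variable {K B : Type} [LinearOrder K] [CompleteBooleanAlgebra B]

/-- two-valued truth value of `x < y` -/
def ltB (B : Type) [CompleteBooleanAlgebra B] {K : Type} [LinearOrder K] (x y : K) : B :=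
  if x < y then ⊤ else ⊥

/-- Boolean value of `R is a preorder` -/
def preB (R : K → K → B) : B :=
  (⨅ x, R x x) ⊓ ⨅ x, ⨅ y, ⨅ z, R x y ⇨ (R y z ⇨ R x z)

/-- Boolean value of `x and y have a common lower bound` -/
def cmpB (R : K → K → B) (x y : K) : B := ⨆ z, R z x ⊓ R z y

/-- Boolean value of `A consists of pairwise incompatible elements` -/
def antB (R : K → K → B) (A : K → B) : B :=
  ⨅ x, ⨅ y, A x ⇨ (A y ⇨ ((if x = y then ⊥ else ⊤) ⇨ (cmpB R x y)ᶜ))

/-- Boolean value of `A is bounded` -/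
def bddB (A : K → B) : B := ⨆ δ, ⨅ x, A x ⇨ ltB B x δ

/-- Boolean value of `R is ccc` -/
def cccB (R : K → K → B) : B := ⨅ A : K → B, antB R A ⇨ bddB A

/-- Boolean value of `all the sets {y : D i y} are dense` -/
def denB (R D : K → K → B) : B := ⨅ i, ⨅ x, ⨆ y, D i y ⊓ R y x

/-- Boolean value of `G is a filter meeting all the dense sets` -/
def genB (R D : K → K → B) (G : K → B) : B :=
  (⨅ x, ⨅ y, G x ⇨ (R x y ⇨ G y)) ⊓
    ((⨅ x, ⨅ y, G x ⇨ (G y ⇨ ⨆ z, G z ⊓ (R z x ⊓ R z y))) ⊓ ⨅ i, ⨆ y, G y ⊓ D i y)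

/-- Boolean value of `f is functional`, for the name `f n x` of a relation between `ℕ` and `K`. -/
def funcB (f : ℕ → K → B) : B :=
  ⨅ n, ⨅ x, ⨅ y, f n x ⇨ (f n y ⇨ (if x = y then ⊤ else ⊥))

/-- `ω₁` is preserved: the values of a partial function from `ℕ` to `K` are bounded. -/
def BddK (K B : Type) [LinearOrder K] [CompleteBooleanAlgebra B] : Prop :=
  ∀ f : ℕ → K → B, funcB f ≤ ⨆ δ, ⨅ n, ⨅ x, f n x ⇨ ltB B x δ

/-- The Boolean-valued Martin's axiom. -/
structure BMA (K B : Type) [LinearOrder K] [CompleteBooleanAlgebra B] : Prop where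
  bdd : BddK K B
  ma : ∀ R D : K → K → B, ∃ G : K → B, preB R ⊓ (cccB R ⊓ denB R D) ≤ genB R D G

/-- Boolean value of `C is closed unbounded` -/
def clubB (C : K → B) : B :=
  (⨅ x, ⨆ y, C y ⊓ ltB B x y) ⊓
    ⨅ a, ⨅ x0, ltB B x0 a ⇨ ((⨅ x, ltB B x a ⇨ ⨆ y, C y ⊓ (ltB B x y ⊓ ltB B y a)) ⇨ C a)

/-- The Boolean-valued diamond principle. -/
structure BDia (K B : Type) [LinearOrder K] [CompleteBooleanAlgebra B] (S : K → K → B) :
    Prop where
  bdd : BddK K B
  dia : ∀ X C : K → B, clubB C ≤ ⨆ a, C a ⊓ ⨅ b, ltB B b a ⇨ iffB (X b) (S a b)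

end Pool.Agent.H30C
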