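import Pool.Agent.Lib.H5Z.Defs

/-!
# Martin's axiom and the diamond principle, expressed inside a structure `(M, E)`

`IsOmega E w`, `Rel E x y r` (that is `(x, y) ∈ r`, Kuratowski pair) are the notions of
`Pool.Agent.Lib.H5Z.Defs`. All quantifiers range over the elements of `M`, so that `MAIn E` and
`DiaIn E` say that `(M, E)` satisfies a certain first-order sentence of the language of set theory.
-/

set_option autoImplicit false

namespace Pool.Agent.H30C

open Pool.Agent.H5Z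

variable {M : Type*} (E : M → M → Prop)

/-- In `(M, E)`: the relation `f` between `w` and `Ω` is (the graph of) a partial function from `w`
to `Ω`. -/
def IsFuncIn (w Ω f : M) : Prop :=
  ∀ n, E n w → ∀ y, E y Ω → ∀ z, E z Ω → Rel E n y f → Rel E n z f → y = z

/-- In `(M, E)`, with `w` the set of natural numbers: `L` is a strict well-order of the set `Ω`, all
its proper initial segments are countable, and each countable subset of `Ω` is strictly bounded.
That is, `(Ω, L)` is a well-order of type `ω₁`. -/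
structure IsOm1In (w Ω L : M) : Prop where
  irr : ∀ x, E x Ω → ¬ Rel E x x L
  trans : ∀ x, E x Ω → ∀ y, E y Ω → ∀ z, E z Ω → Rel E x y L → Rel E y z L → Rel E x z L
  tri : ∀ x, E x Ω → ∀ y, E y Ω → ¬ x = y → Rel E x y L ∨ Rel E y x L
  /-- every set with an element in `Ω` has an `L`-least element in `Ω` -/
  wf : ∀ A x, E x Ω → E x A → ∃ y, E y Ω ∧ E y A ∧ ∀ z, E z Ω → E z A → ¬ Rel E z y L
  /-- every initial segment is covered by the values of a partial function on `w` -/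
  init : ∀ x, E x Ω → ∃ f, IsFuncIn E w Ω f ∧
    ∀ y, E y Ω → Rel E y x L → ∃ n, E n w ∧ Rel E n y f
  /-- the values of a partial function from `w` to `Ω` are bounded -/
  bdd : ∀ f, IsFuncIn E w Ω f →
    ∃ δ, E δ Ω ∧ ∀ n, E n w → ∀ y, E y Ω → Rel E n y f → Rel E y δ L

/-- In `(M, E)`: `R` is a preorder of `Ω`. -/
def IsPreIn (Ω R : M) : Prop :=
  (∀ x, E x Ω → Rel E x x R) ∧
    ∀ x, E x Ω → ∀ y, E y Ω → ∀ z, E z Ω → Rel E x y R → Rel E y z R → Rel E x z R

/-- In `(M, E)`, for `(Ω, L)` of type `ω₁` and a preorder `R` of `Ω`: every set of pairwise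
`R`-incompatible elements of `Ω` is `L`-bounded (that is, countable). -/
def IsCccIn (Ω L R : M) : Prop :=
  ∀ A, (∀ x, E x Ω → ∀ y, E y Ω → E x A → E y A → ¬ x = y →
      ¬ ∃ z, E z Ω ∧ Rel E z x R ∧ Rel E z y R) →
    ∃ δ, E δ Ω ∧ ∀ x, E x Ω → E x A → Rel E x δ L

/-- In `(M, E)`: for each `i` in `Ω` the set `{y : (i, y) ∈ D}` is dense in `(Ω, R)`. -/
def IsDenseIn (Ω R D : M) : Prop :=
  ∀ i, E i Ω → ∀ x, E x Ω → ∃ y, E y Ω ∧ Rel E i y D ∧ Rel E y x R

/-- In `(M, E)`: `G` is a filter of `(Ω, R)` which meets `{y : (i, y) ∈ D}` for each `i` in `Ω`. -/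
def IsGenIn (Ω R D G : M) : Prop :=
  (∀ x, E x Ω → ∀ y, E y Ω → E x G → Rel E x y R → E y G) ∧
    (∀ x, E x Ω → ∀ y, E y Ω → E x G → E y G →
      ∃ z, E z Ω ∧ E z G ∧ Rel E z x R ∧ Rel E z y R) ∧
    ∀ i, E i Ω → ∃ y, E y Ω ∧ E y G ∧ Rel E i y D

/-- `(M, E)` satisfies Martin's axiom `MA_{ℵ₁}`, for preorders of a set `Ω` of size `ℵ₁`: there is a
well-order `(Ω, L)` of type `ω₁` such that for every ccc preorder `R` of `Ω` and every sequence of
`ω₁` dense sets some filter meets all of them. -/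
def MAIn : Prop :=
  ∃ w Ω L : M, IsOmega E w ∧ IsOm1In E w Ω L ∧
    ∀ R D, IsPreIn E Ω R → IsCccIn E Ω L R → IsDenseIn E Ω R D → ∃ G, IsGenIn E Ω R D G

/-- In `(M, E)`: `C` is a closed unbounded subset of `(Ω, L)`. -/
def IsClubIn (Ω L C : M) : Prop :=
  (∀ x, E x Ω → ∃ y, E y Ω ∧ E y C ∧ Rel E x y L) ∧
    ∀ a, E a Ω → ∀ x, E x Ω → Rel E x a L →
      (∀ x, E x Ω → Rel E x a L → ∃ y, E y Ω ∧ E y C ∧ Rel E x y L ∧ Rel E y a L) → E a C

/-- `(M, E)` satisfies Jensen's principle `◇`: there are a well-order `(Ω, L)` of type `ω₁` and a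
sequence of sets `S_a = {b : (a, b) ∈ S}` such that for all sets `X` and all closed unbounded `C`
there is `a ∈ C` with `X ∩ a = S_a ∩ a` (where `a` stands for its set of predecessors). -/
def DiaIn : Prop :=
  ∃ w Ω L S : M, IsOmega E w ∧ IsOm1In E w Ω L ∧
    ∀ X C, IsClubIn E Ω L C →
      ∃ a, E a Ω ∧ E a C ∧ ∀ b, E b Ω → Rel E b a L → (E b X ↔ Rel E a b S)

end Pool.Agent.H30C
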