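import Pool.Agent.Lib.H5Z.BRO
import Pool.Agent.Lib.H30C.BDefs
import Pool.Agent.Lib.H45Osc.Stat

/-!
# A countably closed forcing for the diamond principle

Conditions are countable sequences of guesses.
-/

set_option autoImplicit false

open Set Function

namespace Pool.Agent.H30C

open Pool.Agent.H5Z Pool.Agent.Lib.H45Osc

/-! ### Generalities on regular open sets -/

section General

variable {P : Type} [Preorder P]

theorem mem_iffB' (a b : RO P) (p : P) : p ∈ (iffB a b).s ↔ ∀ q ≤ p, (q ∈ a.s ↔ q ∈ b.s) := by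
  unfold iffB
  rw [RO.mem_inf, RO.mem_himp, RO.mem_himp]
  exact ⟨fun h q hq => ⟨h.1 q hq, h.2 q hq⟩, fun h => ⟨fun q hq => (h q hq).1,
    fun q hq => (h q hq).2⟩⟩

theorem mem_ite (c : Prop) [Decidable c] (p : P) : p ∈ (if c then (⊤ : RO P) else ⊥).s ↔ c := by
  by_cases h : c
  · rw [if_pos h]
    exact ⟨fun _ => h, fun _ => RO.mem_top p⟩
  · rw [if_neg h]
    exact ⟨fun h' => h'.elim, fun h' => absurd h' h⟩

theorem mem_ltB {K : Type} [LinearOrder K] (x y : K) (p : P) :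
    p ∈ (ltB (RO P) x y).s ↔ x < y := mem_ite _ p

/-- decided by `p` -/
def Dec (b : RO P) (p : P) : Prop := p ∈ b.s ∨ p ∈ (bᶜ).s

theorem Dec.mono {b : RO P} {p q : P} (h : Dec b p) (hq : q ≤ p) : Dec b q :=
  h.imp (fun h => b.lower h hq) (fun h => (bᶜ).lower h hq)

theorem exists_dec (b : RO P) (p : P) : ∃ q ≤ p, Dec b q := by
  by_cases h : ∃ q ≤ p, q ∈ b.s
  · obtain ⟨q, hq, hqb⟩ := h
    exact ⟨q, hq, Or.inl hqb⟩
  · push Not at h
    exact ⟨p, le_rfl, Or.inr ((RO.mem_compl b p).2 h)⟩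

/-- Every decreasing sequence has a lower bound. -/
def CClosed (P : Type) [Preorder P] : Prop :=
  ∀ p : ℕ → P, (∀ n, p (n + 1) ≤ p n) → ∃ q, ∀ n, q ≤ p n

/-- Countably many open dense sets have a dense intersection. -/
theorem CClosed.inter (hP : CClosed P) (D : ℕ → Set P) (hd : ∀ n, ∀ p, ∃ q ≤ p, q ∈ D n)
    (ho : ∀ n, ∀ p ∈ D n, ∀ q ≤ p, q ∈ D n) (p : P) : ∃ q ≤ p, ∀ n, q ∈ D n := by
  choose f hf1 hf2 using hd
  let g : ℕ → P := fun n => Nat.rec p (fun n u => f n u) n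
  have hg : ∀ n, g (n + 1) = f n (g n) := fun n => rfl
  obtain ⟨q, hq⟩ := hP g fun n => by rw [hg]; exact hf1 n _
  refine ⟨q, hq 0, fun n => ?_⟩
  refine ho n _ (hf2 n (g n)) q ?_
  have := hq (n + 1)
  rwa [hg] at this

/-- Countably many truth values can be decided. -/
theorem CClosed.decide_all (hP : CClosed P) {X : Type} (b : X → RO P) (s : Set X) (hs : s.Countable)
    (p : P) : ∃ q ≤ p, ∀ x ∈ s, Dec (b x) q := by
  rcases s.eq_empty_or_nonempty with rfl | hne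
  · exact ⟨p, le_rfl, fun x hx => hx.elim⟩
  · obtain ⟨g, rfl⟩ := hs.exists_eq_range hne
    obtain ⟨q, hq, h⟩ := hP.inter (fun n => {q | Dec (b (g n)) q}) (fun n p => exists_dec _ p)
      (fun n p hp q hq => Dec.mono hp hq) p
    refine ⟨q, hq, ?_⟩
    rintro _ ⟨n, rfl⟩
    exact h n

variable {K : Type} [LinearOrder K] [WellFoundedLT K]

/-- Countably closed forcing preserves `ω₁`. -/
theorem CClosed.bddK (hP : CClosed P) (hK : IsOmega1 K) : BddK K (RO P) := by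
  classical
  intro f p hp
  rw [RO.mem_iSup]
  intro q hq
  obtain ⟨r, hr, h⟩ := hP.inter
    (fun n => {r | (∃ x, r ∈ (f n x).s) ∨ ∀ x, ∀ r' ≤ r, r' ∉ (f n x).s})
    (fun n p => by
      by_cases h : ∃ x, ∃ r ≤ p, r ∈ (f n x).s
      · obtain ⟨x, r, hr, h⟩ := h
        exact ⟨r, hr, Or.inl ⟨x, h⟩⟩
      · push Not at h
        exact ⟨p, le_rfl, Or.inr h⟩)
    (fun n p hp q hq => by
      rcases hp with ⟨x, hx⟩ | hx
      · exact Or.inl ⟨x, (f n x).lower hx hq⟩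
      · exact Or.inr fun x r hr => hx x r (hr.trans hq)) q
  have hc : {x | ∃ n, r ∈ (f n x).s}.Countable := by
    have h1 : {x | ∃ n, r ∈ (f n x).s} ⊆ ⋃ n, {x | r ∈ (f n x).s} := by
      rintro x ⟨n, hn⟩
      exact mem_iUnion.2 ⟨n, hn⟩
    refine Set.Countable.mono h1 (Set.countable_iUnion fun n => ?_)
    refine Set.Subsingleton.countable fun x hx y hy => ?_
    have h2 : r ∈ (funcB f).s := (funcB f).lower hp (hr.trans hq)
    unfold funcB at h2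
    rw [RO.mem_iInf] at h2
    have h3 := (RO.mem_iInf _ _).1 ((RO.mem_iInf _ _).1 (h2 n) x) y
    rw [RO.mem_himp] at h3
    have h4 := h3 r le_rfl hx
    rw [RO.mem_himp] at h4
    exact (mem_ite _ r).1 (h4 r le_rfl hy)
  obtain ⟨δ, hδ⟩ := hK.exists_gt hc
  refine ⟨r, hr, δ, ?_⟩
  rw [RO.mem_iInf]
  intro n
  rw [RO.mem_iInf]
  intro x
  rw [RO.mem_himp]
  intro r' hr' hx
  rw [mem_ltB]
  rcases h n with ⟨y, hy⟩ | hn
  · have h2 : r' ∈ (funcB f).s := (funcB f).lower hp (hr'.trans (hr.trans hq))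
    unfold funcB at h2
    rw [RO.mem_iInf] at h2
    have h3 := (RO.mem_iInf _ _).1 ((RO.mem_iInf _ _).1 (h2 n) x) y
    rw [RO.mem_himp] at h3
    have h4 := h3 r' le_rfl hx
    rw [RO.mem_himp] at h4
    have h5 := (mem_ite _ r').1 (h4 r' le_rfl ((f n y).lower hy hr'))
    rw [h5]
    exact hδ y ⟨n, hy⟩
  · exact absurd hx (hn x r' hr')

end General

/-! ### The conditions -/

/-- Conditions: sequences of subsets `{γ : s β γ} ⊆ {γ : γ < β}`, for `β < len`. -/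
structure DC (K : Type) [LinearOrder K] where
  len : K
  s : K → K → Prop
  out : ∀ β γ, s β γ → γ < β ∧ β < len

variable {K : Type} [LinearOrder K]

instance : Preorder (DC K) where
  le q p := p.len ≤ q.len ∧ ∀ β < p.len, ∀ γ, q.s β γ ↔ p.s β γ
  le_refl p := ⟨le_rfl, fun _ _ _ => Iff.rfl⟩
  le_trans r q p h h' := ⟨h'.1.trans h.1, fun β hβ γ =>
    (h.2 β (hβ.trans_le h'.1) γ).trans (h'.2 β hβ γ)⟩

theorem DC.le_def (q p : DC K) : q ≤ p ↔ p.len ≤ q.len ∧ ∀ β < p.len, ∀ γ, q.s β γ ↔ p.s β γ :=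
  Iff.rfl

theorem DC.exists_lub (p : ℕ → DC K) (hp : ∀ n, p (n + 1) ≤ p n) (δ : K)
    (hδ : IsLUB (range fun n => (p n).len) δ) : ∃ q : DC K, q.len = δ ∧ ∀ n, q ≤ p n := by
  have hanti : Antitone p := antitone_nat_of_succ_le hp
  refine ⟨⟨δ, fun β γ => ∃ n, (p n).s β γ, ?_⟩, rfl, fun n => ⟨hδ.1 ⟨n, rfl⟩, ?_⟩⟩
  · rintro β γ ⟨n, hn⟩
    exact ⟨((p n).out β γ hn).1, ((p n).out β γ hn).2.trans_le (hδ.1 ⟨n, rfl⟩)⟩
  · intro β hβ γ
    constructor
    · rintro ⟨m, hm⟩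
      rcases le_total n m with h | h
      · exact ((hanti h).2 β hβ γ).1 hm
      · exact ((hanti h).2 β ((p m).out β γ hm).2 γ).2 hm
    · intro h
      exact ⟨n, h⟩

/-- longer conditions, with a prescribed next guess -/
theorem DC.exists_next (p : DC K) (T : Set K) (δ : K) (hδ : p.len < δ) :
    ∃ q ≤ p, q.len = δ ∧ ∀ γ, q.s p.len γ ↔ γ < p.len ∧ γ ∈ T := by
  refine ⟨⟨δ, fun β γ => p.s β γ ∨ (β = p.len ∧ γ < p.len ∧ γ ∈ T), ?_⟩, ⟨hδ.le, ?_⟩, rfl, ?_⟩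
  · rintro β γ (h | ⟨rfl, h1, h2⟩)
    · exact ⟨(p.out β γ h).1, (p.out β γ h).2.trans hδ⟩
    · exact ⟨h1, hδ⟩
  · intro β hβ γ
    constructor
    · rintro (h | ⟨rfl, h1, h2⟩)
      · exact h
      · exact absurd hβ (lt_irrefl _)
    · exact Or.inl
  · intro γ
    constructor
    · rintro (h | ⟨-, h1, h2⟩)
      · exact absurd (p.out _ γ h).2 (lt_irrefl _)
      · exact ⟨h1, h2⟩
    · rintro ⟨h1, h2⟩
      exact Or.inr ⟨rfl, h1, h2⟩

variable [WellFoundedLT K]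

theorem DC.cclosed (hK : IsOmega1 K) : CClosed (DC K) := by
  intro p hp
  obtain ⟨δ, hδ⟩ := hK.exists_isLUB_range (fun n => (p n).len)
  obtain ⟨q, -, hq⟩ := DC.exists_lub p hp δ hδ
  exact ⟨q, hq⟩

/-- Boolean value of `γ ∈ S_β` for the generic sequence. -/
def DC.S (β γ : K) : RO (DC K) := RO.gen {p | β < p.len ∧ p.s β γ}

omit [WellFoundedLT K] in
theorem DC.mem_S {β γ : K} {p : DC K} (h : β < p.len) : p ∈ (DC.S β γ).s ↔ p.s β γ := by
  constructor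
  · intro hp
    obtain ⟨r, hr, a, ⟨ha1, ha2⟩, hra⟩ := hp p le_rfl
    exact (hr.2 β h γ).1 ((hra.2 β ha1 γ).2 ha2)
  · intro hs q hq
    exact ⟨q, le_rfl, p, ⟨h, hs⟩, hq⟩

/-- one step of the construction for the guessing property -/
theorem DC.step (hK : IsOmega1 K) (X C : K → RO (DC K)) (u : DC K) (hu : u ∈ (clubB C).s) :
    ∃ v ≤ u, u.len < v.len ∧ (∀ β < u.len, Dec (X β) v) ∧
      ∃ γ, u.len < γ ∧ γ < v.len ∧ v ∈ (C γ).s := by
  unfold clubB at hu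
  rw [RO.mem_inf, RO.mem_iInf] at hu
  have h1 := hu.1 u.len
  rw [RO.mem_iSup] at h1
  obtain ⟨v1, hv1, y, hy⟩ := h1 u le_rfl
  rw [RO.mem_inf, mem_ltB] at hy
  obtain ⟨v2, hv2, h2⟩ := (DC.cclosed hK).decide_all X (Iio u.len) (hK.countable_Iio _) v1
  obtain ⟨δ, hδ⟩ := hK.exists_lt (max v2.len y)
  obtain ⟨v3, hv3, h3, -⟩ := DC.exists_next v2 ∅ δ ((le_max_left _ _).trans_lt hδ)
  refine ⟨v3, hv3.trans (hv2.trans hv1), ?_, fun β hβ => (h2 β hβ).mono hv3, y, hy.2, ?_, ?_⟩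
  · rw [h3]
    exact hy.2.trans ((le_max_right _ _).trans_lt hδ)
  · rw [h3]
    exact (le_max_right _ _).trans_lt hδ
  · exact (C y).lower hy.1 (hv3.trans hv2)

/-- The guessing property. -/
theorem DC.dia (hK : IsOmega1 K) (X C : K → RO (DC K)) :
    clubB C ≤ ⨆ a, C a ⊓ ⨅ b, ltB (RO (DC K)) b a ⇨ iffB (X b) (DC.S a b) := by
  intro p hp
  rw [RO.mem_iSup]
  intro q hq
  have hqc : q ∈ (clubB C).s := (clubB C).lower hp hq
  -- the sequence
  let T : Type := {u : DC K // u ∈ (clubB C).s}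
  have hstep : ∀ u : T, ∃ v : T, v.1 ≤ u.1 ∧ u.1.len < v.1.len ∧ (∀ β < u.1.len, Dec (X β) v.1) ∧
      ∃ γ, u.1.len < γ ∧ γ < v.1.len ∧ v.1 ∈ (C γ).s := by
    rintro ⟨u, hu⟩
    obtain ⟨v, hv, h⟩ := DC.step hK X C u hu
    exact ⟨⟨v, (clubB C).lower hu hv⟩, hv, h⟩
  choose F hF1 hF2 hF3 G hG1 hG2 hG3 using hstep
  let g : ℕ → T := fun n => Nat.rec ⟨q, hqc⟩ (fun _ u => F u) n
  have hg : ∀ n, g (n + 1) = F (g n) := fun n => rfl
  obtain ⟨α, hα⟩ := hK.exists_isLUB_range (fun n => (g n).1.len)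
  obtain ⟨r, hr, hrn⟩ := DC.exists_lub (fun n => (g n).1) (fun n => by rw [hg]; exact hF1 _) α hα
  have hlt : ∀ n, (g n).1.len < α := fun n =>
    lt_of_lt_of_le (hF2 (g n)) (by rw [← hg]; exact hα.1 ⟨n + 1, rfl⟩)
  have hex : ∀ x < α, ∃ n, x < (g n).1.len := by
    intro x hx
    obtain ⟨_, ⟨n, rfl⟩, hn⟩ := (lt_isLUB_iff hα).1 hx
    exact ⟨n, hn⟩
  -- the limit is in the club
  have hrC : r ∈ (C α).s := by
    have h1 : r ∈ (clubB C).s := (clubB C).lower hqc (hrn 0)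
    unfold clubB at h1
    rw [RO.mem_inf] at h1
    have h2 := (RO.mem_iInf _ _).1 ((RO.mem_iInf _ _).1 h1.2 α) (g 0).1.len
    rw [RO.mem_himp] at h2
    have h3 := h2 r le_rfl ((mem_ltB _ _ _).2 (hlt 0))
    rw [RO.mem_himp] at h3
    refine h3 r le_rfl ?_
    rw [RO.mem_iInf]
    intro x
    rw [RO.mem_himp]
    intro r' hr' hx
    rw [mem_ltB] at hx
    obtain ⟨n, hn⟩ := hex x hx
    rw [RO.mem_iSup]
    intro r2 hr2
    refine ⟨r2, le_rfl, G (g n), ?_⟩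
    rw [RO.mem_inf, RO.mem_inf, mem_ltB, mem_ltB]
    refine ⟨?_, hn.trans (hG1 (g n)), (hG2 (g n)).trans (by rw [← hg]; exact hlt (n + 1))⟩
    refine (C _).lower (hG3 (g n)) ?_
    rw [← hg]
    exact hr2.trans (hr'.trans (hrn (n + 1)))
  -- add the guess
  obtain ⟨δ, hδ⟩ := hK.exists_lt r.len
  obtain ⟨r1, hr1, hr2, hr3⟩ := DC.exists_next r {β | r ∈ (X β).s} δ hδ
  refine ⟨r1, hr1.trans (hrn 0), α, ?_⟩
  rw [RO.mem_inf]
  refine ⟨(C α).lower hrC hr1, ?_⟩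
  rw [RO.mem_iInf]
  intro b
  rw [RO.mem_himp]
  intro r2 hr2' hb
  rw [mem_ltB] at hb
  rw [mem_iffB']
  intro r4 hr4
  have h41 : r4 ≤ r1 := hr4.trans hr2'
  have hαr1 : α < r1.len := by rw [hr2, ← hr]; exact hδ
  have hαr4 : α < r4.len := hαr1.trans_le h41.1
  rw [DC.mem_S hαr4, h41.2 α hαr1 b]
  have h5 := hr3 b
  rw [hr] at h5
  rw [h5]
  constructor
  · intro h6
    refine ⟨hb, ?_⟩
    obtain ⟨n, hn⟩ := hex b hb
    rcases hF3 (g n) b hn with h7 | h7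
    · refine (X b).lower h7 ?_
      rw [← hg]
      exact hrn (n + 1)
    · exfalso
      refine (RO.mem_compl _ _).1 h7 r4 ?_ h6
      rw [← hg]
      exact h41.trans (hr1.trans (hrn (n + 1)))
  · rintro ⟨-, h6⟩
    exact (X b).lower h6 (h41.trans hr1)

theorem bDia (hK : IsOmega1 K) : BDia K (RO (DC K)) DC.S where
  bdd := (DC.cclosed hK).bddK hK
  dia := DC.dia hK

end Pool.Agent.H30C
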