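import Pool.Agent.Lib.H30C.DiaForcing

/-!
# Regular open sets of ccc posets
-/

set_option autoImplicit false

open Set Function

namespace Pool.Agent.H30C

open Pool.Agent.H5Z Pool.Agent.Lib.H45Osc

/-- A maximal set of conditions in `T` which are pairwise incompatible, for the order `le`. -/
theorem exists_maxanti {P : Type} (le : P → P → Prop) (T : Set P) :
    ∃ E ⊆ T, (∀ p ∈ E, ∀ q ∈ E, p ≠ q → ¬ ∃ r, le r p ∧ le r q) ∧
      ∀ p ∈ T, (∃ r, le r p) → ∃ q ∈ E, ∃ r, le r p ∧ le r q := by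
  obtain ⟨E, hE⟩ := zorn_subset
    {E : Set P | E ⊆ T ∧ ∀ p ∈ E, ∀ q ∈ E, p ≠ q → ¬ ∃ r, le r p ∧ le r q} (by
      intro c hc hchain
      refine ⟨⋃₀ c, ⟨sUnion_subset fun s hs => (hc hs).1, ?_⟩, fun s hs => subset_sUnion_of_mem hs⟩
      intro p hp q hq hne
      obtain ⟨s, hs, hps⟩ := hp
      obtain ⟨s', hs', hqs⟩ := hq
      rcases hchain.total hs hs' with h | h
      · exact (hc hs').2 p (h hps) q hqs hne
      · exact (hc hs).2 p hps q (h hqs) hne)
  refine ⟨E, hE.prop.1, hE.prop.2, ?_⟩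
  intro p hp hpr
  by_contra hcon
  push Not at hcon
  have hmem : insert p E ∈ {E : Set P | E ⊆ T ∧
      ∀ p ∈ E, ∀ q ∈ E, p ≠ q → ¬ ∃ r, le r p ∧ le r q} := by
    refine ⟨insert_subset hp hE.prop.1, ?_⟩
    intro a ha b hb hne
    rcases ha with rfl | ha
    · rcases hb with rfl | hb
      · exact absurd rfl hne
      · rintro ⟨r, h1, h2⟩
        exact hcon b hb r h1 h2
    · rcases hb with rfl | hb
      · rintro ⟨r, h1, h2⟩
        exact hcon a ha r h2 h1
      · exact hE.prop.2 a ha b hb hne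
  have hin : p ∈ E := by
    have := hE.eq_of_subset hmem (subset_insert _ _)
    rw [this]
    exact mem_insert _ _
  obtain ⟨r, hr⟩ := hpr
  exact hcon p hin r hr hr

/-- Sets of pairwise incompatible conditions are countable. -/
def PCcc (P : Type) [Preorder P] : Prop :=
  ∀ E : Set P, (∀ p ∈ E, ∀ q ∈ E, p ≠ q → ¬ ∃ r : P, r ≤ p ∧ r ≤ q) → E.Countable

variable {P : Type} [Preorder P]

/-- A countable set is enumerated by a sequence of options. -/
theorem exists_enum {X : Type} {E : Set X} (hE : E.Countable) :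
    ∃ f : ℕ → Option X, ∀ p, (∃ i, f i = some p) ↔ p ∈ E := by
  classical
  haveI : Countable E := hE.to_subtype
  obtain ⟨g, hg⟩ := exists_injective_nat E
  refine ⟨fun i => if h : ∃ p : E, g p = i then some h.choose.1 else none, fun p => ?_⟩
  constructor
  · rintro ⟨i, hi⟩
    beta_reduce at hi
    by_cases h : ∃ p : E, g p = i
    · rw [dif_pos h] at hi
      rw [← Option.some.inj hi]
      exact h.choose.2
    · rw [dif_neg h] at hi
      exact absurd hi (by simp)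
  · intro hp
    refine ⟨g ⟨p, hp⟩, ?_⟩
    have h : ∃ q : E, g q = g ⟨p, hp⟩ := ⟨⟨p, hp⟩, rfl⟩
    beta_reduce
    rw [dif_pos h]
    have h1 := hg h.choose_spec
    rw [h1]

/-- Every regular open set is generated by a countable set of conditions. -/
theorem PCcc.exists_gen (hP : PCcc P) (b : RO P) :
    ∃ f : ℕ → Option P, b = RO.gen {p | ∃ i, f i = some p} := by
  obtain ⟨E, hEb, hEanti, hEmax⟩ := exists_maxanti (fun q p : P => q ≤ p) b.s
  obtain ⟨f, hf⟩ := exists_enum (hP E hEanti)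
  refine ⟨f, ?_⟩
  have h1 : {p | ∃ i, f i = some p} = E := by
    ext p
    exact hf p
  rw [h1]
  apply le_antisymm
  · intro p hp q hq
    obtain ⟨a, ha, r, hr, hra⟩ := hEmax q (b.lower hp hq) ⟨q, le_rfl⟩
    exact ⟨r, hr, a, ha, hra⟩
  · rw [RO.gen_le_iff]
    exact fun p hp => hEb hp

variable {K : Type} [LinearOrder K] [WellFoundedLT K]

/-- ccc forcing preserves `ω₁`. -/
theorem PCcc.bddK (hP : PCcc P) (hK : IsOmega1 K) : BddK K (RO P) := by
  classical
  intro f p hp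
  rw [RO.mem_iSup]
  intro q hq
  have hfun : ∀ n x y, ∀ r ≤ q, r ∈ (f n x).s → r ∈ (f n y).s → x = y := by
    intro n x y r hr hx hy
    have h2 : r ∈ (funcB f).s := (funcB f).lower hp (hr.trans hq)
    unfold funcB at h2
    have h3 := (RO.mem_iInf _ _).1 ((RO.mem_iInf _ _).1 ((RO.mem_iInf _ _).1 h2 n) x) y
    rw [RO.mem_himp] at h3
    have h4 := h3 r le_rfl hx
    rw [RO.mem_himp] at h4
    exact (mem_ite _ r).1 (h4 r le_rfl hy)
  have hc : ∀ n, {x | ∃ r ≤ q, r ∈ (f n x).s}.Countable := by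
    intro n
    have hr : ∀ x : K, ∃ r : P, (∃ r ≤ q, r ∈ (f n x).s) → r ≤ q ∧ r ∈ (f n x).s := by
      intro x
      by_cases h : ∃ r ≤ q, r ∈ (f n x).s
      · obtain ⟨r, h1⟩ := h
        exact ⟨r, fun _ => h1⟩
      · exact ⟨q, fun h' => absurd h' h⟩
    choose g hg using hr
    have hinj : InjOn g {x | ∃ r ≤ q, r ∈ (f n x).s} := by
      intro x hx y hy hxy
      have h1 := hg x hx
      have h2 := hg y hy
      rw [hxy] at h1
      exact hfun n x y _ h1.1 h1.2 h2.2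
    refine Set.countable_of_injective_of_countable_image hinj (hP _ ?_)
    rintro _ ⟨x, hx, rfl⟩ _ ⟨y, hy, rfl⟩ hne ⟨r, h1, h2⟩
    have hx' := hg x hx
    have hy' := hg y hy
    have := hfun n x y r (h1.trans hx'.1) ((f n x).lower hx'.2 h1) ((f n y).lower hy'.2 h2)
    exact hne (by rw [this])
  obtain ⟨δ, hδ⟩ := hK.exists_gt (Set.countable_iUnion hc)
  refine ⟨q, le_rfl, δ, ?_⟩
  rw [RO.mem_iInf]
  intro n
  rw [RO.mem_iInf]
  intro x
  rw [RO.mem_himp]
  intro r hr hx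
  rw [mem_ltB]
  exact hδ x (mem_iUnion.2 ⟨n, r, hr, hx⟩)

/-! ### Making a name of a preorder total off its truth value -/

theorem mem_preB {R : K → K → RO P} {p : P} : p ∈ (preB R).s ↔
    (∀ x, p ∈ (R x x).s) ∧ ∀ x y z, ∀ q ≤ p, q ∈ (R x y).s → q ∈ (R y z).s → q ∈ (R x z).s := by
  unfold preB
  rw [RO.mem_inf, RO.mem_iInf, RO.mem_iInf]
  refine and_congr Iff.rfl ⟨fun h x y z q hq h1 h2 => ?_, fun h x => ?_⟩
  · have h3 := (RO.mem_iInf _ _).1 ((RO.mem_iInf _ _).1 (h x) y) z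
    rw [RO.mem_himp] at h3
    have h4 := h3 q hq h1
    rw [RO.mem_himp] at h4
    exact h4 q le_rfl h2
  · rw [RO.mem_iInf]
    intro y
    rw [RO.mem_iInf]
    intro z
    rw [RO.mem_himp]
    intro q hq h1
    rw [RO.mem_himp]
    intro r hr h2
    exact h x y z r (hr.trans hq) ((R x y).lower h1 hr) h2

theorem mem_cmpB {R : K → K → RO P} {x y : K} {p : P} : p ∈ (cmpB R x y).s ↔
    ∀ q ≤ p, ∃ r ≤ q, ∃ z, r ∈ (R z x).s ∧ r ∈ (R z y).s := by
  unfold cmpB
  rw [RO.mem_iSup]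
  exact Iff.rfl

theorem mem_antB {R : K → K → RO P} {A : K → RO P} {p : P} : p ∈ (antB R A).s ↔
    ∀ x y, x ≠ y → ∀ q ≤ p, q ∈ (A x).s → q ∈ (A y).s → ¬ ∃ z, q ∈ (R z x).s ∧ q ∈ (R z y).s := by
  unfold antB
  rw [RO.mem_iInf]
  constructor
  · intro h x y hxy q hq h1 h2
    rintro ⟨z, h3, h4⟩
    have h5 := (RO.mem_iInf _ _).1 (h x) y
    rw [RO.mem_himp] at h5
    have h6 := h5 q hq h1
    rw [RO.mem_himp] at h6
    have h7 := h6 q le_rfl h2
    rw [if_neg hxy, top_himp, RO.mem_compl] at h7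
    refine h7 q le_rfl ?_
    rw [mem_cmpB]
    exact fun r hr => ⟨r, le_rfl, z, (R z x).lower h3 hr, (R z y).lower h4 hr⟩
  · intro h x
    rw [RO.mem_iInf]
    intro y
    rw [RO.mem_himp]
    intro q hq h1
    rw [RO.mem_himp]
    intro r hr h2
    by_cases hxy : x = y
    · rw [if_pos hxy, bot_himp]
      exact RO.mem_top r
    · rw [if_neg hxy, top_himp, RO.mem_compl]
      intro s hs h3
      rw [mem_cmpB] at h3
      obtain ⟨t, ht, z, h4, h5⟩ := h3 s le_rfl
      exact h x y hxy t (ht.trans (hs.trans (hr.trans hq))) ((A x).lower h1 (ht.trans (hs.trans hr)))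
        ((A y).lower h2 (ht.trans hs)) ⟨z, h4, h5⟩

theorem mem_bddB {A : K → RO P} {p : P} : p ∈ (bddB A).s ↔
    ∀ q ≤ p, ∃ r ≤ q, ∃ δ, ∀ x, ∀ s ≤ r, s ∈ (A x).s → x < δ := by
  unfold bddB
  rw [RO.mem_iSup]
  refine forall_congr' fun q => forall_congr' fun _ => exists_congr fun r => ?_
  refine and_congr_right fun _ => exists_congr fun δ => ?_
  rw [RO.mem_iInf]
  refine forall_congr' fun x => ?_
  rw [RO.mem_himp]
  refine forall_congr' fun s => forall_congr' fun _ => ?_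
  rw [mem_ltB]

theorem mem_cccB {R : K → K → RO P} {p : P} : p ∈ (cccB R).s ↔
    ∀ A : K → RO P, ∀ q ≤ p, q ∈ (antB R A).s → q ∈ (bddB A).s := by
  unfold cccB
  rw [RO.mem_iInf]
  refine forall_congr' fun A => ?_
  rw [RO.mem_himp]

/-- `R` where it is a ccc preorder, and the total relation elsewhere -/
def fixB (b : RO P) (R : K → K → RO P) (x y : K) : RO P := b ⇨ R x y

theorem mem_fixB {b : RO P} {R : K → K → RO P} {x y : K} {p : P} :
    p ∈ (fixB b R x y).s ↔ ∀ q ≤ p, q ∈ b.s → q ∈ (R x y).s := RO.mem_himp _ _ _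

theorem fixB_iff {b : RO P} {R : K → K → RO P} {x y : K} {p : P} (hp : p ∈ b.s) :
    p ∈ (fixB b R x y).s ↔ p ∈ (R x y).s := by
  rw [mem_fixB]
  exact ⟨fun h => h p le_rfl hp, fun h q hq _ => (R x y).lower h hq⟩

theorem fixB_pre {b : RO P} {R : K → K → RO P} (hb : b ≤ preB R) (p : P) :
    p ∈ (preB (fixB b R)).s := by
  rw [mem_preB]
  constructor
  · intro x
    rw [mem_fixB]
    intro q _ hqb
    exact (mem_preB.1 (hb hqb)).1 x
  · intro x y z q _ h1 h2
    rw [mem_fixB] at h1 h2 ⊢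
    intro r hr hrb
    exact (mem_preB.1 (hb hrb)).2 x y z r le_rfl (h1 r hr hrb) (h2 r hr hrb)

theorem fixB_ccc (hK : IsOmega1 K) {b : RO P} {R : K → K → RO P} (hb : b ≤ cccB R) (p : P) :
    p ∈ (cccB (fixB b R)).s := by
  rw [mem_cccB]
  intro A q _ hant
  rw [mem_antB] at hant
  rw [mem_bddB]
  intro q1 hq1
  by_cases h : ∃ r ≤ q1, r ∈ b.s
  · obtain ⟨r, hr, hrb⟩ := h
    have h1 : r ∈ (antB R A).s := by
      rw [mem_antB]
      intro x y hxy s hs h2 h3
      rintro ⟨z, h4, h5⟩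
      have hsb : s ∈ b.s := b.lower hrb hs
      exact hant x y hxy s (hs.trans (hr.trans hq1)) h2 h3
        ⟨z, (fixB_iff hsb).2 h4, (fixB_iff hsb).2 h5⟩
    have h2 := mem_cccB.1 (hb hrb) A r le_rfl h1
    rw [mem_bddB] at h2
    obtain ⟨s, hs, δ, h3⟩ := h2 r le_rfl
    exact ⟨s, hs.trans hr, δ, h3⟩
  · push Not at h
    have htot : ∀ x y, ∀ r ≤ q1, r ∈ (fixB b R x y).s := by
      intro x y r hr
      rw [mem_fixB]
      intro s hs hsb
      exact absurd hsb (h s (hs.trans hr))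
    have huniq : ∀ x y, ∀ r ≤ q1, r ∈ (A x).s → r ∈ (A y).s → x = y := by
      intro x y r hr h1 h2
      by_contra hxy
      exact hant x y hxy r (hr.trans hq1) h1 h2 ⟨x, htot _ _ r hr, htot _ _ r hr⟩
    by_cases h2 : ∃ r ≤ q1, ∃ x, r ∈ (A x).s
    · obtain ⟨r, hr, x, hx⟩ := h2
      obtain ⟨δ, hδ⟩ := hK.exists_lt x
      refine ⟨r, hr, δ, fun y s hs hy => ?_⟩
      rw [huniq y x s (hs.trans hr) hy ((A x).lower hx hs)]
      exact hδ
    · push Not at h2
      obtain ⟨δ⟩ := hK.nonempty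
      exact ⟨q1, le_rfl, δ, fun x s hs hx => absurd hx (h2 s hs x)⟩

end Pool.Agent.H30C
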