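import Pool.Agent.Lib.H30C.MCond

/-!
# The length of the iteration and the bookkeeping function
-/

set_option autoImplicit false

open Set Function Cardinal

namespace Pool.Agent.H30C

/-- The properties of the index set and of the bookkeeping function. -/
structure MBig (ι K : Type) [LinearOrder ι] (e : ι → MRaw ι K) : Prop where
  bdd : ∀ S : Set ι, #S ≤ ℵ₁ → ∃ b, ∀ s ∈ S, s < b
  book : ∀ (y : MRaw ι K) (α : ι), ∃ η, α < η ∧ e η = y

/-- the finite code of a condition -/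
noncomputable def mcCode {ι K : Type} (p : MC ι K) : Finset (ι × Option K) :=
  by classical exact p.fin.toFinset.image (fun ξ => (ξ, p.v ξ))

theorem mcCode_inj {ι K : Type} : Injective (mcCode (ι := ι) (K := K)) := by
  classical
  intro p q h
  have hp : ∀ (p : MC ι K) ξ a, (ξ, some a) ∈ mcCode p ↔ p.v ξ = some a := by
    intro p ξ a
    unfold mcCode
    rw [Finset.mem_image]
    constructor
    · rintro ⟨η, -, h⟩
      simp only [Prod.mk.injEq] at h
      obtain ⟨rfl, h⟩ := h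
      exact h
    · intro h
      refine ⟨ξ, ?_, by rw [h]⟩
      simp [h]
  refine MC.ext (funext fun ξ => ?_)
  refine Option.ext fun a => ?_
  rw [← hp p, ← hp q, h]

theorem mk_mc {ι K : Type} {κ : Cardinal.{0}} (hκ : ℵ₀ ≤ κ) (hι : #ι = κ) (hK : #K ≤ κ) :
    #(MC ι K) ≤ κ := by
  haveI : Infinite ι := by rw [infinite_iff, hι]; exact hκ
  refine (mk_le_of_injective (mcCode_inj (ι := ι) (K := K))).trans ?_
  have e2 : #(ι × Option K) ≤ κ := by
    rw [mk_prod, mk_option]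
    simp only [lift_id]
    rw [hι]
    exact mul_le_of_le hκ le_rfl (add_le_of_le hκ hK (one_le_aleph0.trans hκ))
  haveI : Infinite (ι × Option K) := inferInstance
  rw [mk_finset_of_infinite]
  exact e2

theorem mk_mraw {ι K : Type} (hι : #ι = 2 ^ (ℵ₁ : Cardinal.{0})) (hK : #K = ℵ₁) :
    #(MRaw ι K) ≤ 2 ^ (ℵ₁ : Cardinal.{0}) := by
  have hκ : (ℵ₀ : Cardinal.{0}) ≤ 2 ^ (ℵ₁ : Cardinal.{0}) :=
    (aleph0_le_aleph 1).trans (cantor _).le
  have h0 := mk_mc hκ hι (hK.le.trans (cantor _).le)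
  have h1 : #(Option (MC ι K)) ≤ 2 ^ (ℵ₁ : Cardinal.{0}) := by
    rw [mk_option]
    exact add_le_of_le hκ h0 (one_le_aleph0.trans hκ)
  have h2 : ((2 : Cardinal.{0}) ^ (ℵ₁ : Cardinal.{0})) ^ (ℵ₀ : Cardinal.{0}) = 2 ^ (ℵ₁ : Cardinal.{0}) := by
    rw [← power_mul, mul_aleph0_eq (aleph0_le_aleph 1)]
  have h2' : ((2 : Cardinal.{0}) ^ (ℵ₁ : Cardinal.{0})) ^ (ℵ₁ : Cardinal.{0}) = 2 ^ (ℵ₁ : Cardinal.{0}) := by
    rw [← power_mul, mul_eq_self (aleph0_le_aleph 1)]
  have h3 : #(ℕ → Option (MC ι K)) ≤ 2 ^ (ℵ₁ : Cardinal.{0}) := by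
    rw [mk_arrow]
    simp only [lift_id, lift_uzero]
    rw [mk_eq_aleph0 ℕ]
    exact (power_le_power_right h1).trans h2.le
  have h4 : #(K → ℕ → Option (MC ι K)) ≤ 2 ^ (ℵ₁ : Cardinal.{0}) := by
    rw [mk_arrow]
    simp only [lift_id]
    rw [hK]
    exact (power_le_power_right h3).trans h2'.le
  show #(K → K → ℕ → Option (MC ι K)) ≤ 2 ^ (ℵ₁ : Cardinal.{0})
  rw [mk_arrow]
  simp only [lift_id]
  rw [hK]
  exact (power_le_power_right h4).trans h2'.le

/-- A well-order of type the initial ordinal of `2 ^ ℵ₁`: its cofinality is larger than `ℵ₁`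
(König), and there are `2 ^ ℵ₁` raw names. -/
theorem exists_mbig (K : Type) (hK : #K = ℵ₁) :
    ∃ (ι : Type) (_ : LinearOrder ι) (_ : WellFoundedLT ι) (e : ι → MRaw ι K),
    MBig ι K e := by
  have hκ : (ℵ₀ : Cardinal.{0}) ≤ 2 ^ (ℵ₁ : Cardinal.{0}) :=
    (aleph0_le_aleph 1).trans (cantor _).le
  have hι : #((2 ^ (ℵ₁ : Cardinal.{0}) : Cardinal.{0}).ord.ToType) = 2 ^ (ℵ₁ : Cardinal.{0}) :=
    mk_ord_toType _
  have hraw := mk_mraw hι hK
  haveI : Nonempty (MRaw ((2 ^ (ℵ₁ : Cardinal.{0}) : Cardinal.{0}).ord.ToType) K) :=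
    ⟨fun _ _ _ => none⟩
  have h1 : #((2 ^ (ℵ₁ : Cardinal.{0}) : Cardinal.{0}).ord.ToType ×
      MRaw ((2 ^ (ℵ₁ : Cardinal.{0}) : Cardinal.{0}).ord.ToType) K) = 2 ^ (ℵ₁ : Cardinal.{0}) := by
    rw [mk_prod]
    simp only [lift_id]
    rw [hι]
    exact mul_eq_left hκ hraw (mk_ne_zero _)
  obtain ⟨φ⟩ := Cardinal.eq.1 (hι.trans h1.symm)
  refine ⟨(2 ^ (ℵ₁ : Cardinal.{0}) : Cardinal.{0}).ord.ToType, inferInstance, inferInstance,
    fun η => (φ η).2, ?_, ?_⟩
  · intro S hS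
    rw [← not_isCofinal_iff]
    intro hc
    have h2 := Order.cof_le hc
    rw [Ordinal.cof_toType] at h2
    have h3 := lt_cof_ord_power (a := (ℵ₁ : Cardinal.{0})) (b := 2) (aleph0_le_aleph 1) one_lt_two
    exact absurd (h2.trans hS) (not_le.2 h3)
  · intro y α
    by_contra hc
    push Not at hc
    have h2 : ∀ i : (2 ^ (ℵ₁ : Cardinal.{0}) : Cardinal.{0}).ord.ToType, φ.symm (i, y) ∈ Iic α := by
      intro i
      rw [mem_Iic]
      by_contra hn
      exact hc _ (not_le.1 hn) (by simp)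
    have h3 : Injective (fun i : (2 ^ (ℵ₁ : Cardinal.{0}) : Cardinal.{0}).ord.ToType =>
        (⟨φ.symm (i, y), h2 i⟩ : Iic α)) := by
      intro i i' h
      have h4 := congrArg Subtype.val h
      simpa using h4
    have h4 := mk_le_of_injective h3
    have h5 := mk_Iic_lt α (by rw [hι, Ordinal.type_toType]) (by rw [hι]; exact hκ)
    exact absurd h4 (not_le.2 h5)

end Pool.Agent.H30C
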