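import Pool.Agent.Lib.H5Z.BRO
import Pool.Agent.Lib.H30C.BDefs

/-!
# The finite support iteration of ccc orders of `K` (a set of size `ℵ₁`)

`ι` is a well-ordered set (the length of the iteration). A condition is a finite partial function
from `ι` to `K`. The bookkeeping function `e` assigns to each stage `ξ` a raw name `e ξ` of a
relation on `K`: countably many conditions for each pair `(b, a)`, which force `b ≤ a`. At stage `ξ`
the order is the relation named by `e ξ` if this is good, that is a ccc preorder in the sense of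
the iteration below `ξ`, and the trivial preorder otherwise.
-/

set_option autoImplicit false

open Set Function

namespace Pool.Agent.H30C

open Pool.Agent.H5Z

/-- Conditions: finite partial functions. -/
@[ext]
structure MC (ι K : Type) where
  v : ι → Option K
  fin : {ξ | v ξ ≠ none}.Finite

variable {ι K : Type}

/-- Raw names for relations on `K`. -/
abbrev MRaw (ι K : Type) : Type := K → K → ℕ → Option (MC ι K)

/-- `q` forces into the set `T`, for the order `le`. -/
def Fc (le : MC ι K → MC ι K → Prop) (T : Set (MC ι K)) (q : MC ι K) : Prop :=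
  ∀ r, le r q → ∃ s, le s r ∧ s ∈ T

/-- The conditions which directly force `b ≤ a`. -/
def HitM (le : MC ι K → MC ι K → Prop) (y : MRaw ι K) (b a : K) : Set (MC ι K) :=
  {s | ∃ i c, y b a i = some c ∧ le s c}

/-- `q` forces `b ≤ a`. -/
def relG (le : MC ι K → MC ι K → Prop) (y : MRaw ι K) (b a : K) (q : MC ι K) : Prop :=
  Fc le (HitM le y b a) q

/-- The relation named by `y` is a ccc preorder of `K`. -/
structure GoodG [LinearOrder K] (le : MC ι K → MC ι K → Prop) (y : MRaw ι K) : Prop where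
  refl : ∀ a q, relG le y a a q
  trans : ∀ a b c q, relG le y a b q → relG le y b c q → relG le y a c q
  ccc : ∀ A : K → Set (MC ι K), (∀ x r q, le r q → q ∈ A x → r ∈ A x) → ∀ q,
    (∀ x z, x ≠ z → ∀ r, le r q → r ∈ A x → r ∈ A z →
      ¬ ∃ u, relG le y u x r ∧ relG le y u z r) →
    ∃ r, le r q ∧ ∃ δ, ∀ x, ¬ x < δ → ∀ s, le s r → s ∉ A x

variable [LinearOrder ι] [WellFoundedLT ι] [LinearOrder K]

/-- The order at stage `ξ`, by recursion: `MRel e ξ b a q` means that `q` forces `b ≤ a` in the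
order of stage `ξ`. -/
def MRel (e : ι → MRaw ι K) : ι → K → K → MC ι K → Prop :=
  (wellFounded_lt : WellFounded ((· < ·) : ι → ι → Prop)).fix fun ξ prev b a q =>
    GoodG (fun q p => ∀ η (h : η < ξ), ∀ a, p.v η = some a → ∃ b, q.v η = some b ∧ prev η h b a q)
      (e ξ) →
    relG (fun q p => ∀ η (h : η < ξ), ∀ a, p.v η = some a → ∃ b, q.v η = some b ∧ prev η h b a q)
      (e ξ) b a q

/-- The order of the iteration, restricted to the coordinates in `S`. -/
def MLE (e : ι → MRaw ι K) (S : Set ι) (q p : MC ι K) : Prop :=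
  ∀ ξ ∈ S, ∀ a, p.v ξ = some a → ∃ b, q.v ξ = some b ∧ MRel e ξ b a q

/-- stage `ξ` is good -/
def MGood (e : ι → MRaw ι K) (ξ : ι) : Prop := GoodG (MLE e (Iio ξ)) (e ξ)

/-- The fundamental equation. -/
theorem MRel_iff (e : ι → MRaw ι K) (ξ : ι) (b a : K) (q : MC ι K) :
    MRel e ξ b a q ↔ (MGood e ξ → relG (MLE e (Iio ξ)) (e ξ) b a q) := by
  unfold MRel
  rw [WellFounded.fix_eq]
  exact Iff.rfl

variable (e : ι → MRaw ι K)

theorem MRel_refl (ξ : ι) (a : K) (q : MC ι K) : MRel e ξ a a q := by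
  rw [MRel_iff]
  exact fun h => h.refl a q

theorem MLE_refl (S : Set ι) (p : MC ι K) : MLE e S p p :=
  fun ξ _ a ha => ⟨a, ha, MRel_refl e ξ a p⟩

theorem MRel_trans {ξ : ι} {a b c : K} {q : MC ι K} (h : MRel e ξ a b q) (h' : MRel e ξ b c q) :
    MRel e ξ a c q := by
  rw [MRel_iff] at *
  exact fun hg => hg.trans a b c q (h hg) (h' hg)

theorem MLE.mono {e : ι → MRaw ι K} {S S' : Set ι} (hS : S' ⊆ S) {q p : MC ι K}
    (h : MLE e S q p) : MLE e S' q p :=
  fun ξ hξ => h ξ (hS hξ)

/-- Initial segments (including the whole of `ι`). -/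
def IsInit (S : Set ι) : Prop := ∀ ξ ∈ S, Iio ξ ⊆ S

omit [WellFoundedLT ι] in
theorem isInit_Iio (ξ : ι) : IsInit (Iio ξ) := fun _ hη => Iio_subset_Iio (le_of_lt hη)

omit [WellFoundedLT ι] in
theorem isInit_univ : IsInit (univ : Set ι) := fun _ _ => subset_univ _

theorem MLE_trans_of {S : Set ι} (hS : IsInit S)
    (hm : ∀ ξ ∈ S, ∀ b a (r q : MC ι K), MLE e (Iio ξ) r q → MRel e ξ b a q → MRel e ξ b a r)
    {r q p : MC ι K} (h : MLE e S r q) (h' : MLE e S q p) : MLE e S r p := by
  intro ξ hξ a ha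
  obtain ⟨b, hb, hba⟩ := h' ξ hξ a ha
  obtain ⟨c, hc, hcb⟩ := h ξ hξ b hb
  exact ⟨c, hc, MRel_trans e hcb (hm ξ hξ b a r q (h.mono (hS ξ hξ)) hba)⟩

theorem MRel_mono (ξ : ι) : ∀ b a (r q : MC ι K), MLE e (Iio ξ) r q → MRel e ξ b a q →
    MRel e ξ b a r := by
  induction ξ using WellFoundedLT.induction with
  | ind ξ ih =>
    intro b a r q hrq h
    rw [MRel_iff] at h ⊢
    intro hg s hs
    exact h hg s (MLE_trans_of e (isInit_Iio ξ) ih hs hrq)

theorem MLE_trans {S : Set ι} (hS : IsInit S) {r q p : MC ι K} (h : MLE e S r q)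
    (h' : MLE e S q p) : MLE e S r p :=
  MLE_trans_of e hS (fun ξ _ => MRel_mono e ξ) h h'

/-- the forced relation only depends on the earlier coordinates -/
theorem MRel_congr {ξ : ι} {b a : K} {q q' : MC ι K} (h : ∀ η < ξ, q.v η = q'.v η)
    (hq : MRel e ξ b a q) : MRel e ξ b a q' := by
  rw [MRel_iff] at hq ⊢
  intro hg r hr
  refine hq hg r fun η hη a ha => ?_
  rw [h η hη] at ha
  exact hr η hη a ha

theorem MLE_of_eq {ξ : ι} {q p : MC ι K} (h : ∀ η < ξ, q.v η = p.v η) : MLE e (Iio ξ) q p :=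
  fun η hη a ha => ⟨a, (h η hη).trans ha, MRel_refl e η a q⟩

/-- `r` below `ξ` and `p` from `ξ` on -/
def am (ξ : ι) (r p : MC ι K) : MC ι K where
  v η := if η < ξ then r.v η else p.v η
  fin := by
    refine (r.fin.union p.fin).subset ?_
    intro η hη
    by_cases h : η < ξ
    · left
      simpa [h] using hη
    · right
      simpa [h] using hη

omit [WellFoundedLT ι] [LinearOrder K] in
theorem am_lt {ξ η : ι} (h : η < ξ) (r p : MC ι K) : (am ξ r p).v η = r.v η := if_pos h

omit [WellFoundedLT ι] [LinearOrder K] in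
theorem am_ge {ξ η : ι} (h : ¬ η < ξ) (r p : MC ι K) : (am ξ r p).v η = p.v η := if_neg h

/-- amalgamation -/
theorem am_le {ξ : ι} {r p : MC ι K} (h : MLE e (Iio ξ) r p) (S : Set ι) :
    MLE e S (am ξ r p) p := by
  intro η _ a ha
  by_cases hη : η < ξ
  · obtain ⟨b, hb, hba⟩ := h η hη a ha
    refine ⟨b, (am_lt hη r p).trans hb, MRel_congr e (fun ζ hζ => ?_) hba⟩
    rw [am_lt (hζ.trans hη)]
  · exact ⟨a, (am_ge hη r p).trans ha, MRel_refl e η a _⟩

theorem am_le' (ξ : ι) (r p : MC ι K) : MLE e (Iio ξ) (am ξ r p) r :=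
  MLE_of_eq e fun _ hη => am_lt hη r p

theorem le_am (ξ : ι) (r p : MC ι K) : MLE e (Iio ξ) r (am ξ r p) :=
  MLE_of_eq e fun _ hη => (am_lt hη r p).symm

/-- Forcing below `ξ` and forcing with the whole iteration agree. -/
theorem Fc_iff {ξ : ι} {T : Set (MC ι K)} (hT : ∀ r q, MLE e (Iio ξ) r q → q ∈ T → r ∈ T)
    (q : MC ι K) : Fc (MLE e (Iio ξ)) T q ↔ Fc (MLE e univ) T q := by
  constructor
  · intro h r hr
    obtain ⟨s, hs, hsT⟩ := h r (hr.mono (subset_univ _))
    exact ⟨am ξ s r, am_le e hs _, hT _ _ (am_le' e ξ s r) hsT⟩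
  · intro h r hr
    obtain ⟨s, hs, hsT⟩ := h (am ξ r q) (am_le e hr _)
    exact ⟨s, MLE_trans e (isInit_Iio ξ) (hs.mono (subset_univ _)) (am_le' e ξ r q), hsT⟩

/-- The poset of the iteration. -/
def PM (_e : ι → MRaw ι K) : Type := MC ι K

instance : Preorder (PM e) where
  le q p := MLE e univ q p
  le_refl p := MLE_refl e univ p
  le_trans r q p h h' := MLE_trans e isInit_univ h h'

theorem PM_le (q p : PM e) : q ≤ p ↔ MLE e univ q p := Iff.rfl

/-- the empty condition -/
def MC.empty (ι K : Type) : MC ι K where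
  v _ := none
  fin := by simp

instance : Nonempty (PM e) := ⟨MC.empty ι K⟩

end Pool.Agent.H30C
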