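import Pool.Agent.Lib.H5Z.BDelta
import Pool.Agent.Lib.H30C.MCond
import Pool.Agent.Lib.H30C.Gen

/-!
# The iteration is ccc
-/

set_option autoImplicit false

open Set Function

namespace Pool.Agent.H30C

open Pool.Agent.H5Z Pool.Agent.Lib.H45Osc

variable {ι K : Type} [LinearOrder ι] [WellFoundedLT ι] [LinearOrder K]

/-- Every uncountable family contains two compatible conditions. -/
def CC (e : ι → MRaw ι K) (S : Set ι) : Prop :=
  ∀ (W : Type) (A : Set W) (f : W → MC ι K), ¬ A.Countable →
    ∃ w ∈ A, ∃ w' ∈ A, w ≠ w' ∧ ∃ r, MLE e S r (f w) ∧ MLE e S r (f w')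

/-- the union of two conditions (the first has priority) -/
def un (p q : MC ι K) : MC ι K where
  v η := if p.v η = none then q.v η else p.v η
  fin := by
    refine (p.fin.union q.fin).subset ?_
    intro η hη
    by_cases h : p.v η = none
    · right
      simpa [h] using hη
    · left
      exact h

omit [LinearOrder ι] [WellFoundedLT ι] [LinearOrder K] in
theorem un_left {p q : MC ι K} {η : ι} {a : K} (h : p.v η = some a) : (un p q).v η = some a := by
  have : p.v η ≠ none := by rw [h]; simp
  exact (if_neg this).trans h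

omit [LinearOrder ι] [WellFoundedLT ι] [LinearOrder K] in
theorem un_right {p q : MC ι K} {η : ι} (h : p.v η = none) : (un p q).v η = q.v η := if_pos h

variable (e : ι → MRaw ι K)

theorem un_le_left (p q : MC ι K) (S : Set ι) : MLE e S (un p q) p :=
  fun η _ a ha => ⟨a, un_left ha, MRel_refl e η a _⟩

/-- the union is below the second condition if the supports are disjoint in `S` -/
theorem un_le_right (p q : MC ι K) (S : Set ι)
    (h : ∀ η ∈ S, p.v η = none ∨ q.v η = none) : MLE e S (un p q) q := by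
  intro η hη a ha
  rcases h η hη with h1 | h1
  · exact ⟨a, (un_right h1).trans ha, MRel_refl e η a _⟩
  · rw [h1] at ha
    exact absurd ha (by simp)

/-- Compatibility below `ξ` of two conditions whose supports are disjoint above `ξ` in `S`, with
suitable values at `ξ`, gives compatibility. -/
theorem combine {S : Set ι} {ξ : ι} {p q r : MC ι K} {a b c : K}
    (hrp : MLE e (Iio ξ) r p) (hrq : MLE e (Iio ξ) r q) (ha : p.v ξ = some a) (hb : q.v ξ = some b)
    (hca : MRel e ξ c a r) (hcb : MRel e ξ c b r)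
    (hd : ∀ η ∈ S, ξ < η → p.v η = none ∨ q.v η = none) :
    ∃ s, MLE e S s p ∧ MLE e S s q := by
  classical
  let m : MC ι K :=
    { v := fun η => if η < ξ then r.v η else if η = ξ then some c else (un p q).v η
      fin := by
        refine ((r.fin.union (un p q).fin).union (finite_singleton ξ)).subset ?_
        intro η hη
        by_cases h : η < ξ
        · left; left
          simpa [h] using hη
        · by_cases h' : η = ξ
          · right
            exact h'
          · left; right
            simpa [h, h'] using hη }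
  have m1 : ∀ η < ξ, m.v η = r.v η := fun η hη => if_pos hη
  have m2 : m.v ξ = some c := by
    change (if ξ < ξ then r.v ξ else if ξ = ξ then some c else (un p q).v ξ) = some c
    rw [if_neg (lt_irrefl ξ), if_pos rfl]
  have m3 : ∀ η, ξ < η → m.v η = (un p q).v η := by
    intro η hη
    change (if η < ξ then r.v η else if η = ξ then some c else (un p q).v η) = _
    rw [if_neg (not_lt.2 hη.le), if_neg hη.ne']
  have hcong : ∀ η ≤ ξ, ∀ b' a', MRel e η b' a' r → MRel e η b' a' m := fun η hη b' a' h =>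
    MRel_congr e (fun ζ hζ => (m1 ζ (hζ.trans_le hη)).symm) h
  refine ⟨m, ?_, ?_⟩
  · intro η hη a' ha'
    rcases lt_trichotomy η ξ with h | h | h
    · obtain ⟨b', hb', hba⟩ := hrp η h a' ha'
      exact ⟨b', (m1 η h).trans hb', hcong η h.le _ _ hba⟩
    · subst h
      rw [ha] at ha'
      obtain rfl := Option.some.inj ha'
      exact ⟨c, m2, hcong _ le_rfl _ _ hca⟩
    · exact ⟨a', (m3 η h).trans (un_left ha'), MRel_refl e η a' _⟩
  · intro η hη a' ha'
    rcases lt_trichotomy η ξ with h | h | h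
    · obtain ⟨b', hb', hba⟩ := hrq η h a' ha'
      exact ⟨b', (m1 η h).trans hb', hcong η h.le _ _ hba⟩
    · subst h
      rw [hb] at ha'
      obtain rfl := Option.some.inj ha'
      exact ⟨c, m2, hcong _ le_rfl _ _ hcb⟩
    · rcases hd η hη h with h1 | h1
      · exact ⟨a', (m3 η h).trans ((un_right h1).trans ha'), MRel_refl e η a' _⟩
      · rw [h1] at ha'
        exact absurd ha' (by simp)

/-- Under the ccc, sets of pairwise incompatible conditions are countable. -/
theorem CC.countable {S : Set ι} (h : CC e S) (E : Set (MC ι K))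
    (hE : ∀ p ∈ E, ∀ q ∈ E, p ≠ q → ¬ ∃ r, MLE e S r p ∧ MLE e S r q) : E.Countable := by
  by_contra hc
  obtain ⟨p, hp, q, hq, hne, hr⟩ := h (MC ι K) E id hc
  exact hE p hp q hq hne hr

/-- the main step -/
theorem cc_step [WellFoundedLT K] (hK : IsOmega1 K) {S : Set ι} (hS : IsInit S) (ih : ∀ ξ ∈ S, CC e (Iio ξ)) :
    CC e S := by
  classical
  intro W A f hA
  let g : W → Finset ι := fun w => (f w).fin.toFinset.filter (· ∈ S)
  have hg : ∀ w η, η ∈ g w ↔ (f w).v η ≠ none ∧ η ∈ S := by
    intro w η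
    simp [g]
  obtain ⟨A', hA', hunc, R, hR⟩ := delta_system A hA g
  -- two different elements of any uncountable set
  have htwo : ∃ w ∈ A', ∃ w' ∈ A', w ≠ w' := by
    by_contra hcon
    push Not at hcon
    exact hunc (Set.Subsingleton.countable fun w hw w' hw' => hcon w hw w' hw')
  by_cases hRe : R = ∅
  · obtain ⟨w, hw, w', hw', hne⟩ := htwo
    refine ⟨w, hA' hw, w', hA' hw', hne, un (f w) (f w'), un_le_left e _ _ _,
      un_le_right e _ _ _ ?_⟩
    intro η hη
    by_contra hcon
    push Not at hcon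
    have h1 : η ∈ g w ∩ g w' := Finset.mem_inter.2 ⟨(hg w η).2 ⟨hcon.1, hη⟩, (hg w' η).2 ⟨hcon.2, hη⟩⟩
    rw [hR w hw w' hw' hne, hRe] at h1
    simp at h1
  · have hRne : R.Nonempty := Finset.nonempty_iff_ne_empty.2 hRe
    set ξ : ι := R.max' hRne with hξ
    have hξR : ξ ∈ R := Finset.max'_mem R hRne
    have hRsub : ∀ w ∈ A', R ⊆ g w := by
      intro w hw
      obtain ⟨w1, hw1, w2, hw2, hne⟩ := htwo
      by_cases h : w = w1
      · have h2 : w ≠ w2 := by rw [h]; exact hne
        rw [← hR w hw w2 hw2 h2]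
        exact Finset.inter_subset_left
      · rw [← hR w hw w1 hw1 h]
        exact Finset.inter_subset_left
    have hξS : ξ ∈ S := by
      obtain ⟨w, hw, _⟩ := htwo
      exact ((hg w ξ).1 (hRsub w hw hξR)).2
    have hval : ∀ w ∈ A', ∃ a, (f w).v ξ = some a := fun w hw =>
      Option.ne_none_iff_exists'.1 ((hg w ξ).1 (hRsub w hw hξR)).1
    have hdisj : ∀ w ∈ A', ∀ w' ∈ A', w ≠ w' → ∀ η ∈ S, ξ < η →
        (f w).v η = none ∨ (f w').v η = none := by
      intro w hw w' hw' hne η hη hlt
      by_contra hcon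
      push Not at hcon
      have h1 : η ∈ g w ∩ g w' :=
        Finset.mem_inter.2 ⟨(hg w η).2 ⟨hcon.1, hη⟩, (hg w' η).2 ⟨hcon.2, hη⟩⟩
      rw [hR w hw w' hw' hne] at h1
      exact absurd (Finset.le_max' R η h1) (not_le.2 hlt)
    haveI : Nonempty K := hK.nonempty
    let a : W → K := fun w => if h : w ∈ A' then (hval w h).choose else Classical.arbitrary K
    have ha : ∀ w ∈ A', (f w).v ξ = some (a w) := by
      intro w hw
      have h1 : a w = (hval w hw).choose := dif_pos hw
      rw [h1]
      exact (hval w hw).choose_spec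
    by_cases hgood : MGood e ξ
    · by_contra hcon
      push Not at hcon
      -- no two conditions of `A'` can be combined
      have hno : ∀ w ∈ A', ∀ w' ∈ A', w ≠ w' → ∀ r, MLE e (Iio ξ) r (f w) →
          MLE e (Iio ξ) r (f w') → ¬ ∃ z, MRel e ξ z (a w) r ∧ MRel e ξ z (a w') r := by
        intro w hw w' hw' hne r h1 h2
        rintro ⟨z, h3, h4⟩
        obtain ⟨s, hs1, hs2⟩ := combine e (S := S) h1 h2 (ha w hw) (ha w' hw') h3 h4
          (hdisj w hw w' hw' hne)
        exact hcon w (hA' hw) w' (hA' hw') hne s hs1 hs2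
      have hrel : ∀ x y r, relG (MLE e (Iio ξ)) (e ξ) x y r → MRel e ξ x y r := by
        intro x y r h
        rw [MRel_iff]
        exact fun _ => h
      let AA : K → Set (MC ι K) := fun x => {q | ∃ w ∈ A', a w = x ∧ MLE e (Iio ξ) q (f w)}
      have hAA : ∀ x r q, MLE e (Iio ξ) r q → q ∈ AA x → r ∈ AA x := by
        rintro x r q hrq ⟨w, hw, hwx, hq⟩
        exact ⟨w, hw, hwx, MLE_trans e (isInit_Iio ξ) hrq hq⟩
      have hcc := hgood.ccc AA hAA
      have hcc' : ∀ q, ∃ r, MLE e (Iio ξ) r q ∧ ∃ δ, ∀ x, ¬ x < δ → ∀ s, MLE e (Iio ξ) s r →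
          s ∉ AA x := by
        intro q
        refine hcc q ?_
        rintro x z hxz r - ⟨w, hw, hwx, h1⟩ ⟨w', hw', hwz, h2⟩ ⟨u, h3, h4⟩
        have hne : w ≠ w' := by
          intro h
          rw [h] at hwx
          exact hxz (hwx.symm.trans hwz)
        refine hno w hw w' hw' hne r h1 h2 ⟨u, ?_, ?_⟩
        · rw [hwx]
          exact hrel _ _ _ h3
        · rw [hwz]
          exact hrel _ _ _ h4
      -- countable fibres
      have hfib : ∀ x, {w ∈ A' | a w = x}.Countable := by
        intro x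
        by_contra hx
        obtain ⟨w, hw, w', hw', hne, r, h1, h2⟩ := ih ξ hξS W {w ∈ A' | a w = x} f hx
        refine hno w hw.1 w' hw'.1 hne r h1 h2 ⟨x, ?_, ?_⟩
        · rw [hw.2]
          exact MRel_refl e ξ x r
        · rw [hw'.2]
          exact MRel_refl e ξ x r
      have hlarge : ∀ δ : K, ∃ w ∈ A', ¬ a w < δ := by
        intro δ
        by_contra hx
        push Not at hx
        apply hunc
        refine Set.Countable.mono ?_ ((hK.countable_Iio δ).biUnion fun x _ => hfib x)
        intro w hw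
        exact mem_biUnion (mem_Iio.2 (hx w hw)) ⟨hw, rfl⟩
      -- a maximal antichain of conditions which bound
      obtain ⟨E, hET, hEanti, hEmax⟩ := exists_maxanti (MLE e (Iio ξ))
        {r : MC ι K | ∃ δ, ∀ x, ¬ x < δ → ∀ s, MLE e (Iio ξ) s r → s ∉ AA x}
      have hEc : E.Countable := (ih ξ hξS).countable e E hEanti
      have hδ : ∀ r : MC ι K, ∃ δ, r ∈ E → ∀ x, ¬ x < δ → ∀ s, MLE e (Iio ξ) s r → s ∉ AA x := by
        intro r
        by_cases hr : r ∈ E
        · obtain ⟨δ, h⟩ := hET hr
          exact ⟨δ, fun _ => h⟩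
        · exact ⟨Classical.arbitrary K, fun h => absurd h hr⟩
      choose d hd using hδ
      obtain ⟨δ, hδ⟩ := hK.exists_gt (hEc.image d)
      obtain ⟨w, hw, hwδ⟩ := hlarge δ
      obtain ⟨r0, hr0, hr0T⟩ := hcc' (f w)
      obtain ⟨r, hrE, s, hs1, hs2⟩ := hEmax r0 hr0T ⟨r0, MLE_refl e _ r0⟩
      refine hd r hrE (a w) ?_ s hs2 ⟨w, hw, rfl, MLE_trans e (isInit_Iio ξ) hs1 hr0⟩
      intro hlt
      exact hwδ (hlt.trans (hδ (d r) ⟨r, hrE, rfl⟩))
    · obtain ⟨w, hw, w', hw', hne, r, h1, h2⟩ := ih ξ hξS W A' f hunc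
      have htriv : ∀ x y q, MRel e ξ x y q := by
        intro x y q
        rw [MRel_iff]
        exact fun h => absurd h hgood
      obtain ⟨s, hs1, hs2⟩ := combine e (S := S) h1 h2 (ha w hw) (ha w' hw')
        (htriv (a w) (a w) r) (htriv (a w) (a w') r) (hdisj w hw w' hw' hne)
      exact ⟨w, hA' hw, w', hA' hw', hne, s, hs1, hs2⟩

theorem cc_Iio [WellFoundedLT K] (hK : IsOmega1 K) (ξ : ι) : CC e (Iio ξ) := by
  induction ξ using WellFoundedLT.induction with
  | ind ξ ih => exact cc_step e hK (isInit_Iio ξ) ih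

/-- The iteration is ccc. -/
theorem cc_univ [WellFoundedLT K] (hK : IsOmega1 K) : CC e (univ : Set ι) :=
  cc_step e hK isInit_univ fun ξ _ => cc_Iio e hK ξ

/-- sets of pairwise incompatible conditions are countable -/
theorem pm_ccc [WellFoundedLT K] (hK : IsOmega1 K) (E : Set (PM e))
    (hE : ∀ p ∈ E, ∀ q ∈ E, p ≠ q → ¬ ∃ r : PM e, r ≤ p ∧ r ≤ q) : E.Countable :=
  (cc_univ e hK).countable e E hE

end Pool.Agent.H30C
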