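import Pool.Agent.Lib.H30C.MCcc
import Pool.Agent.Lib.H30C.MBook

/-!
# The Boolean-valued Martin's axiom holds for the iteration
-/

set_option autoImplicit false

open Set Function Cardinal

namespace Pool.Agent.H30C

open Pool.Agent.H5Z Pool.Agent.Lib.H45Osc

variable {ι K : Type} [LinearOrder ι] [WellFoundedLT ι] [LinearOrder K] [WellFoundedLT K]

/-- the support of a condition is contained in `Iio α` -/
def SuppLt (α : ι) (p : MC ι K) : Prop := ∀ η, p.v η ≠ none → η < α

omit [WellFoundedLT K] in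
theorem le_iff_of_supp (e : ι → MRaw ι K) {α : ι} {c : MC ι K} (hc : SuppLt α c) (s : MC ι K) :
    MLE e (Iio α) s c ↔ MLE e univ s c := by
  constructor
  · intro h η _ a ha
    exact h η (hc η (by rw [ha]; simp)) a ha
  · exact fun h => h.mono (subset_univ _)

/-- a bound for the supports of the conditions in a family of raw names -/
theorem exists_bound {e : ι → MRaw ι K} (hb : MBig ι K e) (hK : #K = ℵ₁) (y : MRaw ι K) :
    ∃ α : ι, ∀ a b i c, y a b i = some c → SuppLt α c := by
  let T : Set ι := ⋃ x : K × K × ℕ, {η | ∃ c, y x.1 x.2.1 x.2.2 = some c ∧ c.v η ≠ none}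
  have hT : #T ≤ ℵ₁ := by
    refine (mk_iUnion_le_sum_mk).trans ((sum_le_mk_mul_iSup _).trans ?_)
    refine mul_le_of_le (aleph0_le_aleph 1) ?_ (ciSup_le' fun x => ?_)
    · rw [mk_prod, mk_prod]
      simp only [lift_id, lift_uzero]
      rw [hK, mk_eq_aleph0 ℕ]
      exact mul_le_of_le (aleph0_le_aleph 1) le_rfl
        (mul_le_of_le (aleph0_le_aleph 1) le_rfl (aleph0_le_aleph 1))
    · refine le_trans ?_ (aleph0_le_aleph 1)
      rw [le_aleph0_iff_set_countable]
      cases hy : y x.1 x.2.1 x.2.2 with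
      | none =>
        refine Set.Countable.mono ?_ Set.countable_empty
        rintro η ⟨c, hc, -⟩
        simp at hc
      | some c0 =>
        refine Set.Countable.mono ?_ c0.fin.countable
        rintro η ⟨c, hc, h⟩
        rw [Option.some.inj hc]
        exact h
  obtain ⟨α, hα⟩ := hb.bdd T hT
  refine ⟨α, fun a b i c hc η hη => hα η ?_⟩
  exact mem_iUnion.2 ⟨(a, b, i), c, hc, hη⟩

omit [WellFoundedLT K] in
/-- A regular open set generated by conditions supported below `ξ` is closed downward for the order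
restricted to the coordinates below `ξ`. -/
theorem gen_lower (e : ι → MRaw ι K) {ξ : ι} (E : Set (MC ι K)) (hE : ∀ c ∈ E, SuppLt ξ c)
    (p q : MC ι K) (h : MLE e (Iio ξ) q p) (hp : (p : PM e) ∈ (RO.gen (P := PM e) E).s) :
    (q : PM e) ∈ (RO.gen (P := PM e) E).s := by
  intro r hr
  have h1 : MLE e (Iio ξ) r p :=
    MLE_trans e (isInit_Iio ξ) (MLE.mono (subset_univ _) hr) h
  obtain ⟨s, hs, c, hc, hsc⟩ := hp (am ξ r p) (am_le e h1 univ)
  have h2 : MLE e (Iio ξ) s r :=
    MLE_trans e (isInit_Iio ξ) (MLE.mono (subset_univ _) hs) (am_le' e ξ r p)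
  refine ⟨am ξ s r, am_le e h2 univ, c, hc, ?_⟩
  refine (le_iff_of_supp e (hE c hc) _).1 ?_
  exact MLE_trans e (isInit_Iio ξ) (am_le' e ξ s r) (MLE.mono (subset_univ _) hsc)

/-- the main theorem on the iteration -/
theorem bma_pm (e : ι → MRaw ι K) (hb : MBig ι K e) (hK : IsOmega1 K) (hcard : #K = ℵ₁) :
    BMA K (RO (PM e)) where
  bdd := PCcc.bddK (P := PM e) (pm_ccc e hK) hK
  ma := by
    classical
    intro R D
    have hccc : PCcc (PM e) := pm_ccc e hK
    set b : RO (PM e) := preB R ⊓ cccB R with hbdef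
    have hb1 : b ≤ preB R := inf_le_left
    have hb2 : b ≤ cccB R := inf_le_right
    let R' : K → K → RO (PM e) := fixB b R
    -- raw names
    have hex : ∀ x y, ∃ f : ℕ → Option (MC ι K),
        R' x y = RO.gen (P := PM e) {p | ∃ i, f i = some p} := fun x y => hccc.exists_gen (R' x y)
    choose yR hyR using hex
    have hex' : ∀ x y, ∃ f : ℕ → Option (MC ι K),
        D x y = RO.gen (P := PM e) {p | ∃ i, f i = some p} := fun x y => hccc.exists_gen (D x y)
    choose yD hyD using hex'
    obtain ⟨α1, hα1⟩ := exists_bound hb hcard yR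
    obtain ⟨α2, hα2⟩ := exists_bound hb hcard yD
    obtain ⟨ξ, hξ, heξ⟩ := hb.book yR (max α1 α2)
    have hR1 : ∀ a b i c, yR a b i = some c → SuppLt ξ c := fun a b i c hc η hη =>
      (hα1 a b i c hc η hη).trans ((le_max_left _ _).trans_lt hξ)
    have hD1 : ∀ a b i c, yD a b i = some c → SuppLt ξ c := fun a b i c hc η hη =>
      (hα2 a b i c hc η hη).trans ((le_max_right _ _).trans_lt hξ)
    -- the relation at stage `ξ`
    have hA : ∀ x y (q : MC ι K), relG (MLE e (Iio ξ)) (e ξ) x y q ↔ (q : PM e) ∈ (R' x y).s := by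
      intro x y q
      unfold relG
      rw [Fc_iff e, hyR, heξ]
      · constructor
        · intro h r hr
          obtain ⟨s, hs, i, c, hc, hsc⟩ := h r hr
          exact ⟨s, hs, c, ⟨i, hc⟩, (le_iff_of_supp e (hR1 x y i c hc) s).1 hsc⟩
        · intro h r hr
          obtain ⟨s, hs, c, ⟨i, hc⟩, hsc⟩ := h r hr
          exact ⟨s, hs, i, c, hc, (le_iff_of_supp e (hR1 x y i c hc) s).2 hsc⟩
      · rintro r q hrq ⟨i, c, hc, hqc⟩
        exact ⟨i, c, hc, MLE_trans e (isInit_Iio ξ) hrq hqc⟩
    have hgood : MGood e ξ := by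
      refine ⟨?_, ?_, ?_⟩
      · intro a q
        rw [hA]
        exact (mem_preB.1 (fixB_pre hb1 q)).1 a
      · intro a b c q h1 h2
        rw [hA] at h1 h2 ⊢
        exact (mem_preB.1 (fixB_pre hb1 q)).2 a b c q le_rfl h1 h2
      · intro A hAc q hq
        -- the name generated by `A`
        let A' : K → RO (PM e) := fun x => RO.gen (P := PM e) (A x)
        have h1 : (show PM e from q) ∈ (antB R' A').s := by
          refine (mem_antB (P := PM e)).2 ?_
          intro x y hxy r hr hx hy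
          rintro ⟨z, h2, h3⟩
          obtain ⟨r1, hr1, c1, hc1, hrc1⟩ := hx r le_rfl
          obtain ⟨r2, hr2, c2, hc2, hrc2⟩ := hy r1 hr1
          have h21 : r2 ∈ A x := hAc x r2 c1 (MLE.mono (subset_univ _) (hr2.trans hrc1)) hc1
          have h22 : r2 ∈ A y := hAc y r2 c2 (MLE.mono (subset_univ _) hrc2) hc2
          have h23 : r2 ≤ r := hr2.trans hr1
          exact hq x y hxy r2 (MLE.mono (subset_univ _) (h23.trans hr)) h21 h22
            ⟨z, (hA z x r2).2 ((R' z x).lower h2 h23), (hA z y r2).2 ((R' z y).lower h3 h23)⟩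
        have h2 := (mem_cccB (P := PM e)).1 (fixB_ccc hK hb2 (show PM e from q)) A' _ le_rfl h1
        obtain ⟨r, hr, δ, h3⟩ := (mem_bddB (P := PM e)).1 h2 _ le_rfl
        refine ⟨r, MLE.mono (subset_univ _) hr, δ, fun x hx s hs hsA => hx ?_⟩
        have h4 : (am ξ s r : MC ι K) ∈ A x := hAc x _ s (am_le' e ξ s r) hsA
        refine h3 x (am ξ s r) (am_le e hs univ) ?_
        intro t ht
        exact ⟨t, le_rfl, am ξ s r, h4, ht⟩
    have hC : ∀ x y (q : MC ι K), MRel e ξ x y q ↔ (q : PM e) ∈ (R' x y).s := by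
      intro x y q
      rw [MRel_iff, hA]
      exact ⟨fun h => h hgood, fun h _ => h⟩
    have hDl : ∀ x y (p q : MC ι K), MLE e (Iio ξ) q p → (p : PM e) ∈ (D x y).s →
        (q : PM e) ∈ (D x y).s := by
      intro x y p q h hp
      rw [hyD] at hp ⊢
      refine gen_lower e _ ?_ p q h hp
      rintro c ⟨i, hc⟩
      exact hD1 x y i c hc
    -- the generic filter
    let G : K → RO (PM e) := fun x =>
      RO.gen (P := PM e) {p : MC ι K | ∃ c, p.v ξ = some c ∧ MRel e ξ c x p}
    have hGmem : ∀ x (p : PM e), (∃ c, MC.v p ξ = some c ∧ MRel e ξ c x p) → p ∈ (G x).s :=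
      fun x p h q hq => ⟨q, le_rfl, p, h, hq⟩
    have hGex : ∀ x (p : PM e), p ∈ (G x).s → ∃ q : PM e, q ≤ p ∧
        ∃ c, MC.v q ξ = some c ∧ MRel e ξ c x q := by
      intro x p hp
      obtain ⟨r, hr, a, ⟨c, hc, hcx⟩, hra⟩ := hp p le_rfl
      obtain ⟨d, hd, hdc⟩ := hra ξ trivial c hc
      refine ⟨r, hr, d, hd, MRel_trans e hdc ?_⟩
      exact MRel_mono e ξ _ _ r a (MLE.mono (subset_univ _) hra) hcx
    refine ⟨G, ?_⟩
    intro p hp
    have hpb : p ∈ b.s := ⟨hp.1, hp.2.1⟩
    have hpD : p ∈ (denB R D).s := hp.2.2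
    have hRR : ∀ x y, ∀ q ≤ p, (MRel e ξ x y q ↔ q ∈ (R x y).s) := by
      intro x y q hq
      exact ⟨fun h => (fixB_iff (P := PM e) (b.lower hpb hq)).1 ((hC x y q).1 h),
        fun h => (hC x y q).2 ((fixB_iff (P := PM e) (b.lower hpb hq)).2 h)⟩
    unfold genB
    rw [RO.mem_inf, RO.mem_inf]
    refine ⟨?_, ?_, ?_⟩
    · rw [RO.mem_iInf]
      intro x
      rw [RO.mem_iInf]
      intro y
      rw [RO.mem_himp]
      intro q hq hx
      rw [RO.mem_himp]
      intro r hr hxy
      refine (G y).mem_of_dense fun r1 hr1 => ?_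
      obtain ⟨r2, hr2, c, hc, hcx⟩ := hGex x r1 ((G x).lower hx (hr1.trans hr))
      have h21 : r2 ≤ r1 := hr2
      refine ⟨r2, hr2, hGmem y r2 ⟨c, hc, MRel_trans e hcx ?_⟩⟩
      exact (hRR x y r2 (h21.trans (hr1.trans (hr.trans hq)))).2 ((R x y).lower hxy (h21.trans hr1))
    · rw [RO.mem_iInf]
      intro x
      rw [RO.mem_iInf]
      intro y
      rw [RO.mem_himp]
      intro q hq hx
      rw [RO.mem_himp]
      intro r hr hy
      rw [RO.mem_iSup]
      intro r1 hr1
      obtain ⟨r2, hr2, c, hc, hcx⟩ := hGex x r1 ((G x).lower hx (hr1.trans hr))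
      have h21 : r2 ≤ r1 := hr2
      obtain ⟨r3, hr3, d, hd, hdy⟩ := hGex y r2 ((G y).lower hy (h21.trans hr1))
      have h32 : r3 ≤ r2 := hr3
      obtain ⟨d', hd', hdc⟩ := hr3 ξ trivial c hc
      rw [hd] at hd'
      obtain rfl := Option.some.inj hd'
      have h3p : r3 ≤ p := h32.trans (h21.trans (hr1.trans (hr.trans hq)))
      refine ⟨r3, h32.trans h21, d, hGmem d r3 ⟨d, hd, MRel_refl e ξ d r3⟩,
        (hRR _ _ _ h3p).1 (MRel_trans e hdc ?_), (hRR _ _ _ h3p).1 hdy⟩
      exact MRel_mono e ξ _ _ r3 r2 (MLE.mono (subset_univ _) hr3) hcx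
    · rw [RO.mem_iInf]
      intro i
      rw [RO.mem_iSup]
      intro q hq
      -- a condition with `ξ` in its support
      obtain ⟨q1, hq1, c, hc⟩ : ∃ q1 : PM e, q1 ≤ q ∧ ∃ c, MC.v q1 ξ = some c := by
        cases hv : MC.v q ξ with
        | some c => exact ⟨q, le_rfl, c, hv⟩
        | none =>
          obtain ⟨k⟩ := hK.nonempty
          refine ⟨MC.mk (update (MC.v q) ξ (some k)) ?_, ?_, k, update_self _ _ _⟩
          · refine ((MC.fin q).union (finite_singleton ξ)).subset ?_
            intro η hη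
            by_cases h : η = ξ
            · right; exact h
            · left
              simpa [h] using hη
          · intro η _ a ha
            have hne : η ≠ ξ := by
              rintro rfl
              rw [hv] at ha
              exact absurd ha (by simp)
            exact ⟨a, (update_of_ne hne _ _).trans ha, MRel_refl e η a _⟩
      have hq1' : q1 ≤ q := hq1
      have h1 : q1 ∈ (denB R D).s := (denB R D).lower hpD (hq1'.trans hq)
      unfold denB at h1
      have h2 := (RO.mem_iInf _ _).1 ((RO.mem_iInf _ _).1 h1 i) c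
      rw [RO.mem_iSup] at h2
      obtain ⟨r, hr, y, hy⟩ := h2 q1 le_rfl
      rw [RO.mem_inf] at hy
      -- the amalgam
      let q2 : MC ι K := ⟨update (MC.v q1) ξ (some y), by
        refine ((MC.fin q1).union (finite_singleton ξ)).subset ?_
        intro η hη
        by_cases h : η = ξ
        · right; exact h
        · left
          simpa [h] using hη⟩
      let u : MC ι K := am ξ r q2
      have hu1 : ∀ η < ξ, u.v η = MC.v r η := fun η hη => am_lt hη r q2
      have hu2 : u.v ξ = some y := (am_ge (lt_irrefl ξ) r q2).trans (update_self _ _ _)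
      have hu3 : ∀ η, ξ < η → u.v η = MC.v q1 η := fun η hη =>
        (am_ge (not_lt.2 hη.le) r q2).trans (update_of_ne hη.ne' _ _)
      have huq : MLE e univ u q1 := by
        intro η _ a ha
        rcases lt_trichotomy η ξ with h | h | h
        · obtain ⟨b', hb', hba⟩ := hr η trivial a ha
          exact ⟨b', (hu1 η h).trans hb', MRel_congr e (fun ζ hζ => (hu1 ζ (hζ.trans h)).symm) hba⟩
        · subst h
          rw [hc] at ha
          obtain rfl := Option.some.inj ha
          exact ⟨y, hu2, MRel_congr e (fun ζ hζ => (hu1 ζ hζ).symm)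
            ((hRR y c r (hr.trans (hq1'.trans hq))).2 hy.2)⟩
        · exact ⟨a, (hu3 η h).trans ha, MRel_refl e η a _⟩
      exact ⟨u, ((PM_le e u q1).2 huq).trans hq1', y, hGmem y u ⟨y, hu2, MRel_refl e ξ y u⟩,
        hDl i y r u (MLE_of_eq e hu1) hy.1⟩

end Pool.Agent.H30C
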