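import Pool.Agent.Lib.H30C.TMA

/-!
# The Boolean-valued diamond principle gives diamond in the quotient structure
-/

set_option autoImplicit false

open Set Function

namespace Pool.Agent.H30C

open Pool.Agent.H5Z BSet Fml Pool.Agent.Lib.H45Osc

variable {B : Type} [CompleteBooleanAlgebra B] {K : Type} [LinearOrder K] [WellFoundedLT K]

theorem Tv.club (U : UF B) (c : BSet B) :
    Tv U (clubB (setV K c)) (IsClubIn (EU U) (cls U (KB K B)) (cls U (LB K B)) (cls U c)) := by
  have h : Tv U ((⨅ x : K, ⨆ y : K, memB (kchk B y) c ⊓ memB (opair (kchk B x) (kchk B y)) (LB K B)) ⊓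
    ⨅ a : K, ⨅ x0 : K, memB (opair (kchk B x0) (kchk B a)) (LB K B) ⇨
      ((⨅ x : K, memB (opair (kchk B x) (kchk B a)) (LB K B) ⇨ ⨆ y : K, memB (kchk B y) c ⊓
        (memB (opair (kchk B x) (kchk B y)) (LB K B) ⊓
          memB (opair (kchk B y) (kchk B a)) (LB K B))) ⇨ memB (kchk B a) c))
      (IsClubIn (EU U) (cls U (KB K B)) (cls U (LB K B)) (cls U c)) := by
    unfold IsClubIn
    refine Tv.and ?_ ?_
    · refine Tv.allK (F := fun x => ⨆ y : K, memB (kchk B y) c ⊓
        memB (opair x (kchk B y)) (LB K B)) ?_ fun x => ?_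
      · exact E1_extB_iSup fun y => E1_extB_inf (E1_extB_const _) (extB_pairL _ _)
      refine Tv.exK (F := fun y => memB y c ⊓
        memB (opair x y) (LB K B)) ?_ fun y => (Tv.mem y c).and (Tv.rel x y _)
      exact E1_extB_inf (extB_memB_left _) (extB_pairR _ _)
    · refine Tv.allK (F := fun a => ⨅ x0 : K, memB (opair (kchk B x0) a) (LB K B) ⇨
        ((⨅ x : K, memB (opair (kchk B x) a) (LB K B) ⇨ ⨆ y : K, memB (kchk B y) c ⊓
        (memB (opair (kchk B x) (kchk B y)) (LB K B) ⊓
          memB (opair (kchk B y) a) (LB K B))) ⇨ memB a c)) ?_ fun a => ?_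
      · exact E1_extB_iInf fun x0 => E1_extB_himp (extB_pairR _ _) (E1_extB_himp
          (E1_extB_iInf fun x => E1_extB_himp (extB_pairR _ _) (E1_extB_iSup fun y =>
            E1_extB_inf (E1_extB_const _) (E1_extB_inf (E1_extB_const _) (extB_pairR _ _))))
          (extB_memB_left _))
      refine Tv.allK (F := fun x0 => memB (opair x0 a) (LB K B) ⇨
        ((⨅ x : K, memB (opair (kchk B x) a) (LB K B) ⇨ ⨆ y : K, memB (kchk B y) c ⊓
        (memB (opair (kchk B x) (kchk B y)) (LB K B) ⊓
          memB (opair (kchk B y) a) (LB K B))) ⇨ memB a c)) ?_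
        fun x0 => (Tv.rel x0 a _).imp (Tv.imp ?_ (Tv.mem a c))
      · exact E1_extB_himp (extB_pairL _ _) (E1_extB_const _)
      refine Tv.allK (F := fun x => memB (opair x a) (LB K B) ⇨ ⨆ y : K, memB (kchk B y) c ⊓
        (memB (opair x (kchk B y)) (LB K B) ⊓
          memB (opair (kchk B y) a) (LB K B))) ?_ fun x => (Tv.rel x a _).imp ?_
      · exact E1_extB_himp (extB_pairL _ _) (E1_extB_iSup fun y =>
            E1_extB_inf (E1_extB_const _) (E1_extB_inf (extB_pairL _ _) (E1_extB_const _)))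
      refine Tv.exK (F := fun y => memB y c ⊓
        (memB (opair x y) (LB K B) ⊓
          memB (opair y a) (LB K B))) ?_
            fun y => (Tv.mem y c).and ((Tv.rel x y _).and (Tv.rel y a _))
      exact E1_extB_inf (extB_memB_left _) (E1_extB_inf (extB_pairR _ _) (extB_pairL _ _))
  simp only [memB_LB] at h
  exact h

theorem diaIn_quot (U : UF B) (hK : IsOmega1 K) (S : K → K → B) (h : BDia K B S) :
    DiaIn (EU U) := by
  refine ⟨cls U omB, cls U (KB K B), cls U (LB K B), cls U (relB S), omega_cls U,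
    isOm1_quot U hK h.bdd, ?_⟩
  intro X C hC
  obtain ⟨x, rfl⟩ := exists_cls U X
  obtain ⟨c, rfl⟩ := exists_cls U C
  have h1 : Tv U (⨆ a : K, memB (kchk B a) c ⊓ ⨅ b : K, memB (opair (kchk B b) (kchk B a)) (LB K B) ⇨
      iffB (memB (kchk B b) x) (memB (opair (kchk B a) (kchk B b)) (relB S)))
      (∃ a, EU U a (cls U (KB K B)) ∧ EU U a (cls U c) ∧ ∀ b, EU U b (cls U (KB K B)) →
        Rel (EU U) b a (cls U (LB K B)) → (EU U b (cls U x) ↔ Rel (EU U) a b (cls U (relB S)))) := by
    refine Tv.exK (F := fun a => memB a c ⊓ ⨅ b : K, memB (opair (kchk B b) a) (LB K B) ⇨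
      iffB (memB (kchk B b) x) (memB (opair a (kchk B b)) (relB S))) ?_
      fun a => (Tv.mem a c).and ?_
    · exact E1_extB_inf (extB_memB_left _) (E1_extB_iInf fun b => E1_extB_himp (extB_pairR _ _)
        (E1_extB_iffB (E1_extB_const _) (extB_pairL _ _)))
    refine Tv.allK (F := fun b => memB (opair b a) (LB K B) ⇨
      iffB (memB b x) (memB (opair a b) (relB S))) ?_
      fun b => (Tv.rel b a _).imp ((Tv.mem b x).iff (Tv.rel a b _))
    exact E1_extB_himp (extB_pairL _ _) (E1_extB_iffB (extB_memB_left _) (extB_pairR _ _))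
  simp only [memB_LB, memB_relB] at h1
  exact (Tv.club U c).mono h1 (h.dia (setV K x) (setV K c)) hC

end Pool.Agent.H30C
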