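import Pool.Agent.Lib.H30C.TOm

/-!
# The Boolean-valued Martin's axiom gives Martin's axiom in the quotient structure
-/

set_option autoImplicit false

open Set Function

namespace Pool.Agent.H30C

open Pool.Agent.H5Z BSet Fml Pool.Agent.Lib.H45Osc

variable {B : Type} [CompleteBooleanAlgebra B] {K : Type} [LinearOrder K] [WellFoundedLT K]

/-- the relation on `K` with name `r` -/
noncomputable def relV (K : Type) [LinearOrder K] [WellFoundedLT K] (r : BSet B) (x y : K) : B :=
  memB (opair (kchk B x) (kchk B y)) r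

/-- the subset of `K` with name `a` -/
noncomputable def setV (K : Type) [LinearOrder K] [WellFoundedLT K] (a : BSet B) (x : K) : B :=
  memB (kchk B x) a

theorem Tv.pre (U : UF B) (r : BSet B) :
    Tv U (preB (relV K r)) (IsPreIn (EU U) (cls U (KB K B)) (cls U r)) := by
  unfold preB relV IsPreIn
  refine Tv.and ?_ ?_
  · refine Tv.allK (F := fun x => memB (opair x x) r) ?_ fun x => Tv.rel x x r
    exact ExtB.diag (fun y => extB_pairL y _) (fun x => extB_pairR x _)
  · refine Tv.allK (F := fun x => ⨅ y : K, ⨅ z : K, memB (opair x (kchk B y)) r ⇨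
      (memB (opair (kchk B y) (kchk B z)) r ⇨ memB (opair x (kchk B z)) r)) ?_ fun x => ?_
    · exact E1_extB_iInf fun y => E1_extB_iInf fun z => E1_extB_himp (extB_pairL _ _)
        (E1_extB_himp (E1_extB_const _) (extB_pairL _ _))
    refine Tv.allK (F := fun y => ⨅ z : K, memB (opair x y) r ⇨
      (memB (opair y (kchk B z)) r ⇨ memB (opair x (kchk B z)) r)) ?_ fun y => ?_
    · exact E1_extB_iInf fun z => E1_extB_himp (extB_pairR _ _)
        (E1_extB_himp (extB_pairL _ _) (E1_extB_const _))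
    refine Tv.allK (F := fun z => memB (opair x y) r ⇨
      (memB (opair y z) r ⇨ memB (opair x z) r))
      ?_ fun z => (Tv.rel x y _).imp ((Tv.rel y z _).imp (Tv.rel x z _))
    exact E1_extB_himp (E1_extB_const _) (E1_extB_himp (extB_pairR _ _) (extB_pairR _ _))

theorem Tv.ant (U : UF B) (r a : BSet B) :
    Tv U (antB (relV K r) (setV K a))
      (∀ x, EU U x (cls U (KB K B)) → ∀ y, EU U y (cls U (KB K B)) → EU U x (cls U a) →
        EU U y (cls U a) → ¬ x = y → ¬ ∃ z, EU U z (cls U (KB K B)) ∧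
          Rel (EU U) z x (cls U r) ∧ Rel (EU U) z y (cls U r)) := by
  have h : Tv U (⨅ x : K, ⨅ y : K, memB (kchk B x) a ⇨ (memB (kchk B y) a ⇨
      ((eqB (kchk B x) (kchk B y))ᶜ ⇨ (⨆ z : K, memB (opair (kchk B z) (kchk B x)) r ⊓
        memB (opair (kchk B z) (kchk B y)) r)ᶜ)))
      (∀ x, EU U x (cls U (KB K B)) → ∀ y, EU U y (cls U (KB K B)) → EU U x (cls U a) →
        EU U y (cls U a) → ¬ x = y → ¬ ∃ z, EU U z (cls U (KB K B)) ∧
          Rel (EU U) z x (cls U r) ∧ Rel (EU U) z y (cls U r)) := by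
    refine Tv.allK (F := fun x => ⨅ y : K, memB x a ⇨ (memB (kchk B y) a ⇨
      ((eqB x (kchk B y))ᶜ ⇨ (⨆ z : K, memB (opair (kchk B z) x) r ⊓
        memB (opair (kchk B z) (kchk B y)) r)ᶜ))) ?_ fun x => ?_
    · exact E1_extB_iInf fun y => E1_extB_himp (extB_memB_left _) (E1_extB_himp (E1_extB_const _)
        (E1_extB_himp (E1_extB_compl (extB_eqB_left _)) (E1_extB_compl (E1_extB_iSup fun z =>
          E1_extB_inf (extB_pairR _ _) (E1_extB_const _)))))
    refine Tv.allK (F := fun y => memB x a ⇨ (memB y a ⇨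
      ((eqB x y)ᶜ ⇨ (⨆ z : K, memB (opair (kchk B z) x) r ⊓
        memB (opair (kchk B z) y) r)ᶜ))) ?_ fun y => ?_
    · exact E1_extB_himp (E1_extB_const _) (E1_extB_himp (extB_memB_left _)
        (E1_extB_himp (E1_extB_compl (extB_eqB_right _)) (E1_extB_compl (E1_extB_iSup fun z =>
          E1_extB_inf (E1_extB_const _) (extB_pairR _ _)))))
    refine (Tv.mem x a).imp ((Tv.mem y a).imp ((Tv.eq x y).not.imp (Tv.not ?_)))
    refine Tv.exK (F := fun z => memB (opair z x) r ⊓ memB (opair z y) r) ?_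
      fun z => (Tv.rel z x r).and (Tv.rel z y r)
    exact E1_extB_inf (extB_pairL _ _) (extB_pairL _ _)
  have e : antB (relV K r) (setV K a) = ⨅ x : K, ⨅ y : K, memB (kchk B x) a ⇨
      (memB (kchk B y) a ⇨ ((eqB (kchk B x) (kchk B y))ᶜ ⇨
        (⨆ z : K, memB (opair (kchk B z) (kchk B x)) r ⊓
        memB (opair (kchk B z) (kchk B y)) r)ᶜ)) := by
    unfold antB cmpB relV setV
    refine iInf_congr fun x => iInf_congr fun y => ?_
    rw [eqB_kchk]
    by_cases h : x = y
    · rw [if_pos h, if_pos h, compl_top]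
    · rw [if_neg h, if_neg h, compl_bot]
  rw [e]
  exact h

theorem Tv.bdd (U : UF B) (a : BSet B) :
    Tv U (bddB (setV K a)) (∃ δ, EU U δ (cls U (KB K B)) ∧ ∀ x, EU U x (cls U (KB K B)) →
      EU U x (cls U a) → Rel (EU U) x δ (cls U (LB K B))) := by
  have h : Tv U (⨆ δ : K, ⨅ x : K, memB (kchk B x) a ⇨
      memB (opair (kchk B x) (kchk B δ)) (LB K B))
      (∃ δ, EU U δ (cls U (KB K B)) ∧ ∀ x, EU U x (cls U (KB K B)) →
      EU U x (cls U a) → Rel (EU U) x δ (cls U (LB K B))) := by
    refine Tv.exK (F := fun δ => ⨅ x : K, memB (kchk B x) a ⇨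
      memB (opair (kchk B x) δ) (LB K B)) ?_ fun δ => ?_
    · exact E1_extB_iInf fun x => E1_extB_himp (E1_extB_const _) (extB_pairR _ _)
    refine Tv.allK (F := fun x => memB x a ⇨
      memB (opair x δ) (LB K B)) ?_ fun x => (Tv.mem x a).imp (Tv.rel x δ _)
    exact E1_extB_himp (extB_memB_left _) (extB_pairL _ _)
  simp only [memB_LB] at h
  exact h

theorem Tv.ccc (U : UF B) (r : BSet B) :
    Tv U (cccB (relV K r)) (IsCccIn (EU U) (cls U (KB K B)) (cls U (LB K B)) (cls U r)) := by
  have h : Tv U (⨅ a : BSet B, antB (relV K r) (setV K a) ⇨ bddB (setV K a))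
      (IsCccIn (EU U) (cls U (KB K B)) (cls U (LB K B)) (cls U r)) := by
    refine Tv.all (F := fun a => antB (relV K r) (setV K a) ⇨ bddB (setV K a)) ?_
      fun a => (Tv.ant U r a).imp (Tv.bdd U a)
    unfold antB bddB setV
    exact E1_extB_himp (E1_extB_iInf fun x => E1_extB_iInf fun y => E1_extB_himp
      (extB_memB_right _) (E1_extB_himp (extB_memB_right _) (E1_extB_const _)))
      (E1_extB_iSup fun δ => E1_extB_iInf fun x => E1_extB_himp (extB_memB_right _)
        (E1_extB_const _))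
  have e : (⨅ a : BSet B, antB (relV K r) (setV K a) ⇨ bddB (setV K a)) = cccB (relV K r) := by
    unfold cccB
    apply le_antisymm
    · refine le_iInf fun A => ?_
      refine (iInf_le _ (setB A)).trans ?_
      have h1 : setV K (setB A) = A := funext fun x => memB_setB A x
      rw [h1]
    · exact le_iInf fun a => iInf_le _ (setV K a)
  rwa [e] at h

theorem Tv.den (U : UF B) (r d : BSet B) :
    Tv U (denB (relV K r) (relV K d)) (IsDenseIn (EU U) (cls U (KB K B)) (cls U r) (cls U d)) := by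
  unfold denB relV IsDenseIn
  refine Tv.allK (F := fun i => ⨅ x : K, ⨆ y : K, memB (opair i (kchk B y)) d ⊓
    memB (opair (kchk B y) (kchk B x)) r) ?_ fun i => ?_
  · exact E1_extB_iInf fun x => E1_extB_iSup fun y => E1_extB_inf (extB_pairL _ _)
      (E1_extB_const _)
  refine Tv.allK (F := fun x => ⨆ y : K, memB (opair i (kchk B y)) d ⊓
    memB (opair (kchk B y) x) r) ?_ fun x => ?_
  · exact E1_extB_iSup fun y => E1_extB_inf (E1_extB_const _) (extB_pairR _ _)
  refine Tv.exK (F := fun y => memB (opair i y) d ⊓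
    memB (opair y x) r) ?_ fun y => (Tv.rel i y d).and (Tv.rel y x r)
  exact E1_extB_inf (extB_pairR _ _) (extB_pairL _ _)

theorem Tv.gen (U : UF B) (r d g : BSet B) :
    Tv U (genB (relV K r) (relV K d) (setV K g))
      (IsGenIn (EU U) (cls U (KB K B)) (cls U r) (cls U d) (cls U g)) := by
  unfold genB relV setV IsGenIn
  refine Tv.and ?_ (Tv.and ?_ ?_)
  · refine Tv.allK (F := fun x => ⨅ y : K, memB x g ⇨ (memB (opair x (kchk B y)) r ⇨
      memB (kchk B y) g)) ?_ fun x => ?_
    · exact E1_extB_iInf fun y => E1_extB_himp (extB_memB_left _)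
        (E1_extB_himp (extB_pairL _ _) (E1_extB_const _))
    refine Tv.allK (F := fun y => memB x g ⇨ (memB (opair x y) r ⇨
      memB y g)) ?_ fun y => (Tv.mem x g).imp ((Tv.rel x y r).imp (Tv.mem y g))
    exact E1_extB_himp (E1_extB_const _) (E1_extB_himp (extB_pairR _ _) (extB_memB_left _))
  · refine Tv.allK (F := fun x => ⨅ y : K, memB x g ⇨ (memB (kchk B y) g ⇨
      ⨆ z : K, memB (kchk B z) g ⊓ (memB (opair (kchk B z) x) r ⊓
        memB (opair (kchk B z) (kchk B y)) r))) ?_ fun x => ?_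
    · exact E1_extB_iInf fun y => E1_extB_himp (extB_memB_left _)
        (E1_extB_himp (E1_extB_const _) (E1_extB_iSup fun z => E1_extB_inf (E1_extB_const _)
          (E1_extB_inf (extB_pairR _ _) (E1_extB_const _))))
    refine Tv.allK (F := fun y => memB x g ⇨ (memB y g ⇨
      ⨆ z : K, memB (kchk B z) g ⊓ (memB (opair (kchk B z) x) r ⊓
        memB (opair (kchk B z) y) r))) ?_ fun y => (Tv.mem x g).imp ((Tv.mem y g).imp ?_)
    · exact E1_extB_himp (E1_extB_const _)
        (E1_extB_himp (extB_memB_left _) (E1_extB_iSup fun z => E1_extB_inf (E1_extB_const _)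
          (E1_extB_inf (E1_extB_const _) (extB_pairR _ _))))
    refine Tv.exK (F := fun z => memB z g ⊓ (memB (opair z x) r ⊓
        memB (opair z y) r)) ?_ fun z => (Tv.mem z g).and ((Tv.rel z x r).and (Tv.rel z y r))
    exact E1_extB_inf (extB_memB_left _) (E1_extB_inf (extB_pairL _ _) (extB_pairL _ _))
  · refine Tv.allK (F := fun i => ⨆ y : K, memB (kchk B y) g ⊓
      memB (opair i (kchk B y)) d) ?_ fun i => ?_
    · exact E1_extB_iSup fun y => E1_extB_inf (E1_extB_const _) (extB_pairL _ _)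
    refine Tv.exK (F := fun y => memB y g ⊓
      memB (opair i y) d) ?_ fun y => (Tv.mem y g).and (Tv.rel i y d)
    exact E1_extB_inf (extB_memB_left _) (extB_pairR _ _)

theorem maIn_quot (U : UF B) (hK : IsOmega1 K) (h : BMA K B) : MAIn (EU U) := by
  refine ⟨cls U omB, cls U (KB K B), cls U (LB K B), omega_cls U, isOm1_quot U hK h.bdd, ?_⟩
  intro R D h1 h2 h3
  obtain ⟨r, rfl⟩ := exists_cls U R
  obtain ⟨d, rfl⟩ := exists_cls U D
  obtain ⟨G, hG⟩ := h.ma (relV K r) (relV K d)
  refine ⟨cls U (setB G), ?_⟩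
  have h4 := (Tv.pre (K := K) U r).and ((Tv.ccc (K := K) U r).and (Tv.den (K := K) U r d))
  have h5 := Tv.gen (K := K) U r d (setB G)
  have h6 : setV K (setB G) = G := funext fun x => memB_setB G x
  rw [h6] at h5
  exact h4.mono h5 hG ⟨h1, h2, h3⟩

end Pool.Agent.H30C
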