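import Pool.Agent.Lib.H5Z.Z1
import Pool.Agent.Lib.H5Z.Z2
import Pool.Agent.Lib.H5Z.Z3
import Pool.Agent.Lib.H5Z.Z4
import Pool.Agent.Lib.H5Z.Z5
import Pool.Agent.Lib.H5Z.Z6
import Pool.Agent.Lib.H5Z.Z7
import Pool.Agent.Lib.H5Z.Z8
import Pool.Agent.Lib.H5Z.Z9
import Pool.Agent.Lib.H5Z.C5
import Pool.Agent.Lib.H30C.TMA
import Pool.Agent.Lib.H30C.TDia
import Pool.Agent.Lib.H30C.MFin
import Pool.Agent.Lib.H30C.DiaForcing

/-!
# Models of ZFC with Martin's axiom, and with diamond
-/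

set_option autoImplicit false

open Set Function Cardinal

namespace Pool.Agent.H30C

open Pool.Agent.H5Z Pool.Agent.Lib.H45Osc

theorem mod_modelsZFC {B : Type} [CompleteBooleanAlgebra B] (U : UF B) : ModelsZFC (EU U) where
  ext := z_ext U
  found := z_found U
  pair := z_pair U
  union := z_union U
  power := z_power U
  inf := z_inf U
  sep := z_sep U
  repl := z_repl U
  choice := z_choice U

/-- a well-order of type `ω₁` -/
abbrev K1 : Type := (Cardinal.aleph 1 : Cardinal.{0}).ord.ToType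

theorem mk_K1 : #K1 = ℵ₁ := mk_ord_toType _

theorem isOmega1_K1 : IsOmega1 K1 where
  countable_Iio := by
    intro i
    have h : #(Iio i) < ℵ₁ := by
      have := Cardinal.mk_Iio_lt i (by rw [mk_K1, Ordinal.type_toType])
      rwa [mk_K1] at this
    have h' : #(Iio i) < Order.succ ℵ₀ := h.trans_eq Cardinal.succ_aleph0.symm
    exact Cardinal.le_aleph0_iff_set_countable.1 (Order.lt_succ_iff.1 h')
  not_countable := by
    intro h
    have h1 := Cardinal.le_aleph0_iff_set_countable.2 h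
    rw [Cardinal.mk_univ, mk_K1] at h1
    exact absurd h1 (not_le.2 Cardinal.aleph0_lt_aleph_one)

/-- There is a model of ZFC which satisfies Martin's axiom `MA_{ℵ₁}`. -/
theorem exists_ma_model : ∃ (M : Type 1) (E : M → M → Prop), ModelsZFC E ∧ MAIn E := by
  obtain ⟨ι, _, _, e, hb⟩ := exists_mbig K1 mk_K1
  obtain ⟨U⟩ := exists_UF (RO (PM e))
  exact ⟨Mod U, EU U, mod_modelsZFC U, maIn_quot U isOmega1_K1 (bma_pm e hb isOmega1_K1 mk_K1)⟩

/-- There is a model of ZFC which satisfies Jensen's principle `◇`. -/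
theorem exists_dia_model : ∃ (M : Type 1) (E : M → M → Prop), ModelsZFC E ∧ DiaIn E := by
  haveI : Nonempty (DC K1) := by
    obtain ⟨k⟩ := isOmega1_K1.nonempty
    exact ⟨⟨k, fun _ _ => False, fun _ _ h => h.elim⟩⟩
  obtain ⟨U⟩ := exists_UF (RO (DC K1))
  exact ⟨Mod U, EU U, mod_modelsZFC U, diaIn_quot U isOmega1_K1 DC.S (bDia isOmega1_K1)⟩

end Pool.Agent.H30C
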