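import Pool.Agent.Lib.H5Z.D5
import Pool.Agent.Lib.H5Z.E1
import Pool.Agent.Lib.H30C.BDefs

/-!
# Names for the elements of a well-order `K`, for subsets of `K` and for relations
-/

set_option autoImplicit false

open Set Function

namespace Pool.Agent.H30C

open Pool.Agent.H5Z BSet

section

variable {K : Type} [LinearOrder K] [WellFoundedLT K] {B : Type} [CompleteBooleanAlgebra B]

/-- canonical name of an element of `K` -/
noncomputable def kchk (B : Type) [CompleteBooleanAlgebra B] : K → BSet B :=
  (wellFounded_lt : WellFounded ((· < ·) : K → K → Prop)).fix fun x prev =>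
    BSet.mk {y : K // y < x} (fun y => prev y.1 y.2) (fun _ => ⊤)

theorem kchk_eq (x : K) :
    (kchk B x : BSet B) = BSet.mk {y : K // y < x} (fun y => kchk B y.1) (fun _ => ⊤) := by
  unfold kchk
  rw [WellFounded.fix_eq]

theorem kchk_lt (x : K) : ∀ y, x < y → eqB (kchk B x) (kchk B y) = ⊥ := by
  induction x using WellFoundedLT.induction with
  | ind x ih =>
    intro y hxy
    rw [eq_bot_iff, kchk_eq y, eqB_symm, kchk_eq x, eqB]
    refine inf_le_left.trans ((iInf_le _ (⟨x, hxy⟩ : {z : K // z < y})).trans ?_)
    rw [top_himp]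
    refine iSup_le fun i => ?_
    rw [eqB_symm]
    have := ih i.1 i.2 x i.2
    change ⊤ ⊓ eqB (kchk B i.1) (kchk B x) ≤ ⊥
    rw [this]
    exact inf_le_right

theorem eqB_kchk (x y : K) : eqB (kchk B x) (kchk B y) = if x = y then ⊤ else ⊥ := by
  rcases lt_trichotomy x y with h | h | h
  · rw [if_neg h.ne, kchk_lt x y h]
  · subst h
    rw [if_pos rfl, eqB_refl]
  · rw [if_neg h.ne', eqB_symm, kchk_lt y x h]

/-- name of the set `K` -/
noncomputable def KB (K B : Type) [LinearOrder K] [WellFoundedLT K] [CompleteBooleanAlgebra B] :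
    BSet B :=
  BSet.mk K (kchk B) (fun _ => ⊤)

/-- name of the subset of `K` with characteristic function `A` -/
noncomputable def setB (A : K → B) : BSet B := BSet.mk K (kchk B) A

/-- name of the relation with characteristic function `R` -/
noncomputable def relB (R : K → K → B) : BSet B :=
  BSet.mk (K × K) (fun p => opair (kchk B p.1) (kchk B p.2)) (fun p => R p.1 p.2)

/-- name of the relation between `ℕ` and `K` with characteristic function `f` -/
noncomputable def funN (f : ℕ → K → B) : BSet B :=
  BSet.mk (ℕ × K) (fun p => opair (nchk p.1) (kchk B p.2)) (fun p => f p.1 p.2)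

theorem memB_setB (A : K → B) (x : K) : memB (kchk B x) (setB A) = A x := by
  unfold setB
  rw [memB]
  apply le_antisymm
  · refine iSup_le fun y => ?_
    rw [eqB_kchk]
    by_cases h : x = y
    · subst h
      exact inf_le_left
    · rw [if_neg h, inf_bot_eq]
      exact bot_le
  · refine le_iSup_of_le x ?_
    rw [eqB_kchk, if_pos rfl, inf_top_eq]

theorem memB_relB (R : K → K → B) (x y : K) :
    memB (opair (kchk B x) (kchk B y)) (relB R) = R x y := by
  unfold relB
  rw [memB]
  apply le_antisymm
  · refine iSup_le fun p => ?_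
    rw [eqB_opair, eqB_kchk, eqB_kchk]
    by_cases h : x = p.1
    · by_cases h' : y = p.2
      · rw [h, h']
        exact inf_le_left
      · rw [if_neg h', inf_bot_eq, inf_bot_eq]
        exact bot_le
    · rw [if_neg h, bot_inf_eq, inf_bot_eq]
      exact bot_le
  · refine le_iSup_of_le (x, y) ?_
    rw [eqB_opair, eqB_kchk, eqB_kchk, if_pos rfl, if_pos rfl, inf_top_eq, inf_top_eq]

theorem memB_funN (f : ℕ → K → B) (n : ℕ) (x : K) :
    memB (opair (nchk n) (kchk B x)) (funN f) = f n x := by
  unfold funN
  rw [memB]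
  apply le_antisymm
  · refine iSup_le fun p => ?_
    rw [eqB_opair, eqB_nchk, eqB_kchk]
    by_cases h : n = p.1
    · by_cases h' : x = p.2
      · rw [h, h']
        exact inf_le_left
      · rw [if_neg h', inf_bot_eq, inf_bot_eq]
        exact bot_le
    · rw [if_neg h, bot_inf_eq, inf_bot_eq]
      exact bot_le
  · refine le_iSup_of_le (n, x) ?_
    rw [eqB_opair, eqB_nchk, eqB_kchk, if_pos rfl, if_pos rfl, inf_top_eq, inf_top_eq]

end

end Pool.Agent.H30C
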