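import Pool.Agent.Lib.H5Z.DS
import Pool.Agent.Lib.H5Z.D6
import Pool.Agent.Lib.H5Z.C4
import Pool.Agent.Lib.H30C.Names

/-!
# Truth values of properties of the quotient structure
-/

set_option autoImplicit false

open Set Function

namespace Pool.Agent.H30C

open Pool.Agent.H5Z BSet Fml

section

variable {B : Type} [CompleteBooleanAlgebra B] {U : UF B}

/-- `b` is the Boolean value of the property `P` of the quotient structure. -/
def Tv (U : UF B) (b : B) (P : Prop) : Prop := b ∈ U.s ↔ P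

theorem Tv.imp {b c : B} {P Q : Prop} (h : Tv U b P) (h' : Tv U c Q) : Tv U (b ⇨ c) (P → Q) := by
  unfold Tv at *
  rw [U.himp_mem, h, h']

theorem Tv.and {b c : B} {P Q : Prop} (h : Tv U b P) (h' : Tv U c Q) : Tv U (b ⊓ c) (P ∧ Q) := by
  unfold Tv at *
  rw [U.inf_mem, h, h']

theorem Tv.or {b c : B} {P Q : Prop} (h : Tv U b P) (h' : Tv U c Q) : Tv U (b ⊔ c) (P ∨ Q) := by
  unfold Tv at *
  rw [U.sup_mem, h, h']

theorem Tv.not {b : B} {P : Prop} (h : Tv U b P) : Tv U bᶜ (¬ P) := by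
  unfold Tv at *
  rw [U.compl_mem, h]

theorem Tv.iff {b c : B} {P Q : Prop} (h : Tv U b P) (h' : Tv U c Q) :
    Tv U (iffB b c) (P ↔ Q) := by
  unfold iffB
  have := (h.imp h').and (h'.imp h)
  rwa [← iff_iff_implies_and_implies] at this

theorem Tv.all {F : BSet B → B} {P : Mod U → Prop} (hF : ExtB F)
    (h : ∀ x, Tv U (F x) (P (cls U x))) : Tv U (⨅ x, F x) (∀ m, P m) := by
  unfold Tv at *
  rw [iInf_mem_iff U F hF]
  constructor
  · intro h1 m
    obtain ⟨x, rfl⟩ := exists_cls U m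
    exact (h x).1 (h1 x)
  · intro h1 x
    exact (h x).2 (h1 _)

theorem Tv.ex {F : BSet B → B} {P : Mod U → Prop} (hF : ExtB F)
    (h : ∀ x, Tv U (F x) (P (cls U x))) : Tv U (⨆ x, F x) (∃ m, P m) := by
  unfold Tv at *
  rw [iSup_mem_iff U F hF]
  constructor
  · rintro ⟨x, hx⟩
    exact ⟨_, (h x).1 hx⟩
  · rintro ⟨m, hm⟩
    obtain ⟨x, rfl⟩ := exists_cls U m
    exact ⟨x, (h x).2 hm⟩

theorem Tv.mem (x y : BSet B) : Tv U (memB x y) (EU U (cls U x) (cls U y)) := Iff.rfl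

theorem Tv.eq (x y : BSet B) : Tv U (eqB x y) (cls U x = cls U y) := (cls_eq U x y).symm

theorem Tv.rel (x y r : BSet B) :
    Tv U (memB (opair x y) r) (Rel (EU U) (cls U x) (cls U y) (cls U r)) := by
  let v : ℕ → BSet B := fun n => if n = 0 then x else if n = 1 then y else r
  have h1 := sat_fRel (EU U) 0 1 2 (by decide) (by decide) (by decide) (fun i => cls U (v i))
  have h2 := los U (fRel 0 1 2) v
  have h3 := bval_fRel 0 1 2 (by decide) (by decide) (by decide) v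
  rw [h3] at h2
  exact h2.symm.trans h1

theorem omega_cls (U : UF B) : IsOmega (EU U) (cls U omB) := by
  have h1 := sat_fOmega (EU U) (fun _ => cls U omB)
  have h2 := los U (fOmega 0) (fun _ => omB)
  have h3 := bval_fOmega (fun _ => (omB : BSet B)) rfl
  rw [h3] at h2
  exact h1.1 (h2.2 U.top)

theorem Tv.allW {F : BSet B → B} {P : Mod U → Prop} (hF : ExtB F)
    (h : ∀ x, Tv U (F x) (P (cls U x))) :
    Tv U (⨅ n : ℕ, F (nchk n)) (∀ m, EU U m (cls U omB) → P m) := by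
  have h1 := Tv.all (U := U) (F := fun x => memB x omB ⇨ F x)
    (P := fun m => EU U m (cls U omB) → P m) (E1_extB_himp (extB_memB_left _) hF)
    (fun x => (Tv.mem x omB).imp (h x))
  rwa [iInf_omB F hF] at h1

theorem Tv.exW {F : BSet B → B} {P : Mod U → Prop} (hF : ExtB F)
    (h : ∀ x, Tv U (F x) (P (cls U x))) :
    Tv U (⨆ n : ℕ, F (nchk n)) (∃ m, EU U m (cls U omB) ∧ P m) := by
  have h1 := Tv.ex (U := U) (F := fun x => memB x omB ⊓ F x)
    (P := fun m => EU U m (cls U omB) ∧ P m) (E1_extB_inf (extB_memB_left _) hF)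
    (fun x => (Tv.mem x omB).and (h x))
  rwa [iSup_omB F hF] at h1

variable {K : Type} [LinearOrder K] [WellFoundedLT K]

theorem iInf_KB (F : BSet B → B) (hF : ExtB F) :
    (⨅ z, memB z (KB K B) ⇨ F z) = ⨅ k : K, F (kchk B k) := by
  rw [iInf_memB F hF]
  unfold KB
  change (⨅ i : K, ⊤ ⇨ F (kchk B i)) = _
  simp only [top_himp]

theorem iSup_KB (F : BSet B → B) (hF : ExtB F) :
    (⨆ z, memB z (KB K B) ⊓ F z) = ⨆ k : K, F (kchk B k) := by
  rw [iSup_memB F hF]
  unfold KB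
  change (⨆ i : K, ⊤ ⊓ F (kchk B i)) = _
  simp only [top_inf_eq]

theorem Tv.allK {F : BSet B → B} {P : Mod U → Prop} (hF : ExtB F)
    (h : ∀ x, Tv U (F x) (P (cls U x))) :
    Tv U (⨅ k : K, F (kchk B k)) (∀ m, EU U m (cls U (KB K B)) → P m) := by
  have h1 := Tv.all (U := U) (F := fun x => memB x (KB K B) ⇨ F x)
    (P := fun m => EU U m (cls U (KB K B)) → P m) (E1_extB_himp (extB_memB_left _) hF)
    (fun x => (Tv.mem x (KB K B)).imp (h x))
  rwa [iInf_KB F hF] at h1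

theorem Tv.exK {F : BSet B → B} {P : Mod U → Prop} (hF : ExtB F)
    (h : ∀ x, Tv U (F x) (P (cls U x))) :
    Tv U (⨆ k : K, F (kchk B k)) (∃ m, EU U m (cls U (KB K B)) ∧ P m) := by
  have h1 := Tv.ex (U := U) (F := fun x => memB x (KB K B) ⊓ F x)
    (P := fun m => EU U m (cls U (KB K B)) ∧ P m) (E1_extB_inf (extB_memB_left _) hF)
    (fun x => (Tv.mem x (KB K B)).and (h x))
  rwa [iSup_KB F hF] at h1

/-- A property with truth value `⊤` holds. -/
theorem Tv.holds {b : B} {P : Prop} (h : Tv U b P) (hb : b = ⊤) : P := by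
  unfold Tv at h
  rw [← h, hb]
  exact U.top

/-- monotonicity -/
theorem Tv.mono {b c : B} {P Q : Prop} (h : Tv U b P) (h' : Tv U c Q) (hbc : b ≤ c) : P → Q := by
  intro hP
  exact h'.1 (U.up _ _ (h.2 hP) hbc)

end

end Pool.Agent.H30C
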