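import Pool.Agent.Lib.H30C.Defs
import Pool.Agent.Lib.H30C.Tr
import Pool.Agent.Lib.H45Osc.Stat

/-!
# The name of `K` is a well-order of type `ω₁` in the quotient structure
-/

set_option autoImplicit false

open Set Function

namespace Pool.Agent.H30C

open Pool.Agent.H5Z BSet Fml Pool.Agent.Lib.H45Osc

variable {B : Type} [CompleteBooleanAlgebra B]

theorem ExtB.diag {F : BSet B → BSet B → B} (h : ∀ y, ExtB (fun x => F x y))
    (h' : ∀ x, ExtB (fun y => F x y)) : ExtB (fun x => F x x) := by
  intro a a'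
  refine le_trans ?_ (h' a' a a')
  exact le_inf inf_le_left (h a a a')

theorem extB_pairL (y r : BSet B) : ExtB (fun x => memB (opair x y) r) := extB_opair_left y r

theorem extB_pairR (x r : BSet B) : ExtB (fun y => memB (opair x y) r) := extB_opair_right x r

theorem extB_pairS (x y : BSet B) : ExtB (fun r => memB (opair x y) r) := extB_memB_right _

variable {K : Type} [LinearOrder K] [WellFoundedLT K]

/-- name of the order of `K` -/
noncomputable def LB (K B : Type) [LinearOrder K] [WellFoundedLT K] [CompleteBooleanAlgebra B] :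
    BSet B := relB (ltB B : K → K → B)

theorem memB_LB (x y : K) : memB (opair (kchk B x) (kchk B y)) (LB K B) = ltB B x y :=
  memB_relB _ x y

/-- the value of `f is functional` for an arbitrary name `f` -/
theorem Tv.func (U : UF B) (f : BSet B) :
    Tv U (funcB (fun n (x : K) => memB (opair (nchk n) (kchk B x)) f))
      (IsFuncIn (EU U) (cls U omB) (cls U (KB K B)) (cls U f)) := by
  have key : Tv U (⨅ n : ℕ, ⨅ x : K, ⨅ y : K, memB (opair (nchk n) (kchk B x)) f ⇨
      (memB (opair (nchk n) (kchk B y)) f ⇨ eqB (kchk B x) (kchk B y)))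
      (IsFuncIn (EU U) (cls U omB) (cls U (KB K B)) (cls U f)) := by
    refine Tv.allW (F := fun n => ⨅ x : K, ⨅ y : K, memB (opair n (kchk B x)) f ⇨
      (memB (opair n (kchk B y)) f ⇨ eqB (kchk B x) (kchk B y))) ?_ fun n => ?_
    · exact E1_extB_iInf fun x => E1_extB_iInf fun y => E1_extB_himp (extB_pairL _ _)
        (E1_extB_himp (extB_pairL _ _) (E1_extB_const _))
    refine Tv.allK (F := fun x => ⨅ y : K, memB (opair n x) f ⇨
      (memB (opair n (kchk B y)) f ⇨ eqB x (kchk B y))) ?_ fun x => ?_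
    · exact E1_extB_iInf fun y => E1_extB_himp (extB_pairR _ _)
        (E1_extB_himp (E1_extB_const _) (extB_eqB_left _))
    refine Tv.allK (F := fun y => memB (opair n x) f ⇨
      (memB (opair n y) f ⇨ eqB x y)) ?_ fun y => ?_
    · exact E1_extB_himp (E1_extB_const _)
        (E1_extB_himp (extB_pairR _ _) (extB_eqB_right _))
    exact (Tv.rel n x f).imp ((Tv.rel n y f).imp (Tv.eq x y))
  simp only [eqB_kchk] at key
  exact key

theorem isOm1_quot (U : UF B) (hK : IsOmega1 K) (hb : BddK K B) :
    IsOm1In (EU U) (cls U omB) (cls U (KB K B)) (cls U (LB K B)) where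
  irr := by
    have h : Tv U (⨅ x : K, (memB (opair (kchk B x) (kchk B x)) (LB K B))ᶜ)
        (∀ x, EU U x (cls U (KB K B)) → ¬ Rel (EU U) x x (cls U (LB K B))) := by
      refine Tv.allK (F := fun x => (memB (opair x x) (LB K B))ᶜ) ?_ fun x => (Tv.rel x x _).not
      exact E1_extB_compl (ExtB.diag (fun y => extB_pairL y _) (fun x => extB_pairR x _))
    refine h.holds ?_
    simp [memB_LB, ltB]
  trans := by
    have h : Tv U (⨅ x : K, ⨅ y : K, ⨅ z : K, memB (opair (kchk B x) (kchk B y)) (LB K B) ⇨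
        (memB (opair (kchk B y) (kchk B z)) (LB K B) ⇨ memB (opair (kchk B x) (kchk B z)) (LB K B)))
        (∀ x, EU U x (cls U (KB K B)) → ∀ y, EU U y (cls U (KB K B)) → ∀ z,
          EU U z (cls U (KB K B)) → Rel (EU U) x y (cls U (LB K B)) →
          Rel (EU U) y z (cls U (LB K B)) → Rel (EU U) x z (cls U (LB K B))) := by
      refine Tv.allK (F := fun x => ⨅ y : K, ⨅ z : K, memB (opair x (kchk B y)) (LB K B) ⇨
        (memB (opair (kchk B y) (kchk B z)) (LB K B) ⇨ memB (opair x (kchk B z)) (LB K B)))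
        ?_ fun x => ?_
      · exact E1_extB_iInf fun y => E1_extB_iInf fun z => E1_extB_himp (extB_pairL _ _)
          (E1_extB_himp (E1_extB_const _) (extB_pairL _ _))
      refine Tv.allK (F := fun y => ⨅ z : K, memB (opair x y) (LB K B) ⇨
        (memB (opair y (kchk B z)) (LB K B) ⇨ memB (opair x (kchk B z)) (LB K B)))
        ?_ fun y => ?_
      · exact E1_extB_iInf fun z => E1_extB_himp (extB_pairR _ _)
          (E1_extB_himp (extB_pairL _ _) (E1_extB_const _))
      refine Tv.allK (F := fun z => memB (opair x y) (LB K B) ⇨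
        (memB (opair y z) (LB K B) ⇨ memB (opair x z) (LB K B)))
        ?_ fun z => (Tv.rel x y _).imp ((Tv.rel y z _).imp (Tv.rel x z _))
      exact E1_extB_himp (E1_extB_const _) (E1_extB_himp (extB_pairR _ _) (extB_pairR _ _))
    refine h.holds ?_
    rw [eq_top_iff]
    refine le_iInf fun x => le_iInf fun y => le_iInf fun z => ?_
    rw [memB_LB, memB_LB, memB_LB]
    unfold ltB
    by_cases h1 : x < y
    · by_cases h2 : y < z
      · simp [h1, h2, h1.trans h2]
      · simp [h2]
    · simp [h1]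
  tri := by
    have h : Tv U (⨅ x : K, ⨅ y : K, (eqB (kchk B x) (kchk B y))ᶜ ⇨
        (memB (opair (kchk B x) (kchk B y)) (LB K B) ⊔ memB (opair (kchk B y) (kchk B x)) (LB K B)))
        (∀ x, EU U x (cls U (KB K B)) → ∀ y, EU U y (cls U (KB K B)) → ¬ x = y →
          Rel (EU U) x y (cls U (LB K B)) ∨ Rel (EU U) y x (cls U (LB K B))) := by
      refine Tv.allK (F := fun x => ⨅ y : K, (eqB x (kchk B y))ᶜ ⇨
        (memB (opair x (kchk B y)) (LB K B) ⊔ memB (opair (kchk B y) x) (LB K B)))
        ?_ fun x => ?_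
      · exact E1_extB_iInf fun y => E1_extB_himp (E1_extB_compl (extB_eqB_left _))
          (E1_extB_sup (extB_pairL _ _) (extB_pairR _ _))
      refine Tv.allK (F := fun y => (eqB x y)ᶜ ⇨
        (memB (opair x y) (LB K B) ⊔ memB (opair y x) (LB K B)))
        ?_ fun y => (Tv.eq x y).not.imp ((Tv.rel x y _).or (Tv.rel y x _))
      exact E1_extB_himp (E1_extB_compl (extB_eqB_right _))
          (E1_extB_sup (extB_pairR _ _) (extB_pairL _ _))
    refine h.holds ?_
    rw [eq_top_iff]
    refine le_iInf fun x => le_iInf fun y => ?_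
    rw [memB_LB, memB_LB, eqB_kchk]
    unfold ltB
    rcases lt_trichotomy x y with h1 | h1 | h1
    · simp [h1]
    · simp [h1]
    · simp [h1]
  wf := by
    intro A x hx hA
    obtain ⟨a, rfl⟩ := exists_cls U A
    have h1 : Tv U (⨆ x : K, memB (kchk B x) a) (∃ x, EU U x (cls U (KB K B)) ∧ EU U x (cls U a)) :=
      Tv.exK (F := fun x => memB x a) (extB_memB_left _) fun x => Tv.mem x a
    have h2 : Tv U (⨆ y : K, memB (kchk B y) a ⊓ ⨅ z : K, memB (kchk B z) a ⇨
        (memB (opair (kchk B z) (kchk B y)) (LB K B))ᶜ)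
        (∃ y, EU U y (cls U (KB K B)) ∧ EU U y (cls U a) ∧ ∀ z, EU U z (cls U (KB K B)) →
          EU U z (cls U a) → ¬ Rel (EU U) z y (cls U (LB K B))) := by
      refine Tv.exK (F := fun y => memB y a ⊓ ⨅ z : K, memB (kchk B z) a ⇨
        (memB (opair (kchk B z) y) (LB K B))ᶜ) ?_ fun y => (Tv.mem y a).and ?_
      · exact E1_extB_inf (extB_memB_left _) (E1_extB_iInf fun z => E1_extB_himp (E1_extB_const _)
          (E1_extB_compl (extB_pairR _ _)))
      refine Tv.allK (F := fun z => memB z a ⇨ (memB (opair z y) (LB K B))ᶜ) ?_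
        fun z => (Tv.mem z a).imp (Tv.rel z y _).not
      exact E1_extB_himp (extB_memB_left _) (E1_extB_compl (extB_pairL _ _))
    refine h1.mono h2 ?_ ⟨x, hx, hA⟩
    refine iSup_le fun x => ?_
    induction x using WellFoundedLT.induction with
    | ind x ih =>
      set T : B := ⨆ y : K, memB (kchk B y) a ⊓ ⨅ z : K, memB (kchk B z) a ⇨
        (memB (opair (kchk B z) (kchk B y)) (LB K B))ᶜ with hT
      have h3 : memB (kchk B x) a ⊓ Tᶜ ≤ ⨅ z : K, memB (kchk B z) a ⇨
          (memB (opair (kchk B z) (kchk B x)) (LB K B))ᶜ := by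
        refine le_iInf fun z => ?_
        rw [memB_LB, le_himp_iff]
        unfold ltB
        by_cases h4 : z < x
        · have h5 : memB (kchk B x) a ⊓ Tᶜ ⊓ memB (kchk B z) a ≤ Tᶜ ⊓ T :=
            le_inf (inf_le_left.trans inf_le_right) (inf_le_right.trans (ih z h4))
          rw [compl_inf_eq_bot] at h5
          exact h5.trans bot_le
        · simp [h4]
      have h6 : memB (kchk B x) a ⊓ Tᶜ ≤ T :=
        le_trans (le_inf inf_le_left h3) (le_iSup (fun y : K => memB (kchk B y) a ⊓
          ⨅ z : K, memB (kchk B z) a ⇨ (memB (opair (kchk B z) (kchk B y)) (LB K B))ᶜ) x)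
      have h7 : memB (kchk B x) a ⊓ Tᶜ ≤ ⊥ := by
        have := le_inf h6 (inf_le_right : memB (kchk B x) a ⊓ Tᶜ ≤ Tᶜ)
        rwa [inf_compl_eq_bot] at this
      rwa [← le_compl_iff_disjoint_right.trans disjoint_iff_inf_le |>.symm.trans Iff.rfl |>.symm,
        compl_compl] at h7
  init := by
    have h : Tv U (⨅ x : K, ⨆ f : BSet B, funcB (fun n (y : K) => memB (opair (nchk n) (kchk B y)) f) ⊓
        ⨅ y : K, memB (opair (kchk B y) (kchk B x)) (LB K B) ⇨
          ⨆ n : ℕ, memB (opair (nchk n) (kchk B y)) f)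
        (∀ x, EU U x (cls U (KB K B)) → ∃ f, IsFuncIn (EU U) (cls U omB) (cls U (KB K B)) f ∧
          ∀ y, EU U y (cls U (KB K B)) → Rel (EU U) y x (cls U (LB K B)) →
            ∃ n, EU U n (cls U omB) ∧ Rel (EU U) n y f) := by
      refine Tv.allK (F := fun x => ⨆ f : BSet B,
        funcB (fun n (y : K) => memB (opair (nchk n) (kchk B y)) f) ⊓
        ⨅ y : K, memB (opair (kchk B y) x) (LB K B) ⇨
          ⨆ n : ℕ, memB (opair (nchk n) (kchk B y)) f) ?_ fun x => ?_
      · exact E1_extB_iSup fun f => E1_extB_inf (E1_extB_const _) (E1_extB_iInf fun y =>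
          E1_extB_himp (extB_pairR _ _) (E1_extB_const _))
      refine Tv.ex (F := fun f => funcB (fun n (y : K) => memB (opair (nchk n) (kchk B y)) f) ⊓
        ⨅ y : K, memB (opair (kchk B y) x) (LB K B) ⇨
          ⨆ n : ℕ, memB (opair (nchk n) (kchk B y)) f) ?_ fun f => (Tv.func U f).and ?_
      · unfold funcB
        exact E1_extB_inf (E1_extB_iInf fun n => E1_extB_iInf fun y => E1_extB_iInf fun z =>
          E1_extB_himp (extB_pairS _ _) (E1_extB_himp (extB_pairS _ _) (E1_extB_const _)))
          (E1_extB_iInf fun y => E1_extB_himp (E1_extB_const _)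
            (E1_extB_iSup fun n => extB_pairS _ _))
      refine Tv.allK (F := fun y => memB (opair y x) (LB K B) ⇨
          ⨆ n : ℕ, memB (opair (nchk n) y) f) ?_ fun y => (Tv.rel y x _).imp ?_
      · exact E1_extB_himp (extB_pairL _ _) (E1_extB_iSup fun n => extB_pairR _ _)
      exact Tv.exW (F := fun n => memB (opair n y) f) (extB_pairL _ _) fun n => Tv.rel n y f
    refine h.holds ?_
    rw [eq_top_iff]
    refine le_iInf fun x => ?_
    obtain ⟨e, he⟩ := Set.countable_iff_exists_injOn.1 (hK.countable_Iio x)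
    classical
    refine le_iSup_of_le (funN (fun n (y : K) => if y < x ∧ e y = n then (⊤ : B) else ⊥)) ?_
    refine le_inf ?_ (le_iInf fun y => ?_)
    · unfold funcB
      refine le_iInf fun n => le_iInf fun y => le_iInf fun z => ?_
      beta_reduce
      rw [memB_funN, memB_funN]
      by_cases h1 : y < x ∧ e y = n
      · by_cases h2 : z < x ∧ e z = n
        · rw [if_pos (he h1.1 h2.1 (h1.2.trans h2.2.symm))]
          simp
        · rw [if_neg h2]
          simp
      · rw [if_neg h1]
        simp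
    · rw [memB_LB]
      unfold ltB
      by_cases h1 : y < x
      · rw [if_pos h1, top_himp]
        refine le_iSup_of_le (e y) ?_
        rw [memB_funN, if_pos ⟨h1, rfl⟩]
      · rw [if_neg h1, bot_himp]
  bdd := by
    intro f hf
    obtain ⟨g, rfl⟩ := exists_cls U f
    have h2 : Tv U (⨆ δ : K, ⨅ n : ℕ, ⨅ y : K, memB (opair (nchk n) (kchk B y)) g ⇨
        memB (opair (kchk B y) (kchk B δ)) (LB K B))
        (∃ δ, EU U δ (cls U (KB K B)) ∧ ∀ n, EU U n (cls U omB) → ∀ y, EU U y (cls U (KB K B)) →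
          Rel (EU U) n y (cls U g) → Rel (EU U) y δ (cls U (LB K B))) := by
      refine Tv.exK (F := fun δ => ⨅ n : ℕ, ⨅ y : K, memB (opair (nchk n) (kchk B y)) g ⇨
        memB (opair (kchk B y) δ) (LB K B)) ?_ fun δ => ?_
      · exact E1_extB_iInf fun n => E1_extB_iInf fun y => E1_extB_himp (E1_extB_const _)
          (extB_pairR _ _)
      refine Tv.allW (F := fun n => ⨅ y : K, memB (opair n (kchk B y)) g ⇨
        memB (opair (kchk B y) δ) (LB K B)) ?_ fun n => ?_
      · exact E1_extB_iInf fun y => E1_extB_himp (extB_pairL _ _) (E1_extB_const _)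
      refine Tv.allK (F := fun y => memB (opair n y) g ⇨
        memB (opair y δ) (LB K B)) ?_ fun y => (Tv.rel n y g).imp (Tv.rel y δ _)
      exact E1_extB_himp (extB_pairR _ _) (extB_pairL _ _)
    refine (Tv.func (K := K) U g).mono h2 ?_ hf
    simp only [memB_LB]
    exact hb _

end Pool.Agent.H30C
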