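import Pool.Agent.Lib.H30C.ZOm
import Pool.Agent.Lib.H94.DiaSuslin

/-!
# Diamond in the universe of sets, from its first-order form
-/

set_option autoImplicit false

open Set Function Order

namespace Pool.Agent.H30C

open Pool.Agent.H5Z Pool.Agent.Lib.H45Osc Pool.Agent.H94.Dia

/-- no principal segment embedding between well-orders of type `ω₁` -/
theorem no_principal {V W : Type 1} [LinearOrder V] [LinearOrder W]
    (hV : IsOmega1 V) (hW : IsOmega1 W)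
    (f : PrincipalSeg ((· < ·) : V → V → Prop) ((· < ·) : W → W → Prop)) : False := by
  apply hV.not_countable
  have h1 : (f '' (univ : Set V)).Countable := by
    refine (hW.countable_Iio f.top).mono ?_
    rintro _ ⟨x, -, rfl⟩
    exact f.lt_top x
  exact Set.countable_of_injective_of_countable_image f.injective.injOn h1

/-- Two well-orders of type `ω₁` are isomorphic. -/
theorem exists_orderIso {V W : Type 1} [LinearOrder V] [WellFoundedLT V] [LinearOrder W]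
    [WellFoundedLT W] (hV : IsOmega1 V) (hW : IsOmega1 W) : Nonempty (V ≃o W) := by
  rcases InitialSeg.total ((· < ·) : V → V → Prop) ((· < ·) : W → W → Prop) with f | f
  · rcases f.principalSumRelIso with g | g
    · exact (no_principal hV hW g).elim
    · exact ⟨OrderIso.ofRelIsoLT g⟩
  · rcases f.principalSumRelIso with g | g
    · exact (no_principal hW hV g).elim
    · exact ⟨(OrderIso.ofRelIsoLT g).symm⟩

/-- Diamond from its first-order form. -/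
theorem dia_of_in (h : DiaIn EZ) : Diamond := by
  obtain ⟨w, Ω, L, S, hw, hO, hD⟩ := h
  obtain ⟨i, hlt, hwf, hO1⟩ := exists_order hw hO
  obtain ⟨e⟩ : Nonempty (Elt Ω ≃o W1) := exists_orderIso hO1 isOmega1
  refine ⟨fun α => {β | β < α ∧ Rel EZ (e.symm α).1 (e.symm β).1 S}, ?_⟩
  intro T C hC
  let X : ZFSet.{0} := ZFSet.sep (fun z => ∃ hz : z ∈ Ω, e ⟨z, hz⟩ ∈ T) Ω
  let Y : ZFSet.{0} := ZFSet.sep (fun z => ∃ hz : z ∈ Ω, e ⟨z, hz⟩ ∈ C) Ω
  have hX : ∀ x : Elt Ω, x.1 ∈ X ↔ e x ∈ T := fun x => by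
    rw [ZFSet.mem_sep]
    exact ⟨fun h => h.2.2, fun h => ⟨x.2, x.2, h⟩⟩
  have hY : ∀ x : Elt Ω, x.1 ∈ Y ↔ e x ∈ C := fun x => by
    rw [ZFSet.mem_sep]
    exact ⟨fun h => h.2.2, fun h => ⟨x.2, x.2, h⟩⟩
  have hclub : IsClubIn EZ Ω L Y := by
    constructor
    · intro x hx
      obtain ⟨b, hb⟩ := hO1.exists_lt (⟨x, hx⟩ : Elt Ω)
      obtain ⟨c, hc, hbc⟩ := hC.isCofinal (e b)
      refine ⟨(e.symm c).1, (e.symm c).2, (hY _).2 (by simpa using hc), ?_⟩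
      refine (hlt ⟨x, hx⟩ (e.symm c)).1 ?_
      exact lt_of_lt_of_le hb (e.le_symm_apply.2 hbc)
    · intro a ha x hx hxa hlim
      refine (hY ⟨a, ha⟩).2 ?_
      have hne : ({y | y ∈ C ∧ y < e ⟨a, ha⟩} : Set W1).Nonempty := by
        obtain ⟨y, hy, hyY, -, hya⟩ := hlim x hx hxa
        exact ⟨e ⟨y, hy⟩, (hY ⟨y, hy⟩).1 hyY, e.lt_iff_lt.2 ((hlt ⟨y, hy⟩ ⟨a, ha⟩).2 hya)⟩
      refine hC.isLUB_mem (t := {y | y ∈ C ∧ y < e ⟨a, ha⟩}) (fun y hy => hy.1) hne ?_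
      constructor
      · rintro y ⟨-, hy⟩
        exact hy.le
      · intro b hb
        by_contra hlt'
        rw [not_le] at hlt'
        have h1 : Rel EZ (e.symm b).1 a L := by
          exact (hlt (e.symm b) ⟨a, ha⟩).1 (e.symm_apply_lt.2 hlt')
        obtain ⟨y, hy, hyY, hby, hya⟩ := hlim _ (e.symm b).2 h1
        have h2 : e ⟨y, hy⟩ ≤ b := hb ⟨(hY ⟨y, hy⟩).1 hyY, e.lt_iff_lt.2 ((hlt ⟨y, hy⟩ ⟨a, ha⟩).2 hya)⟩
        have h3 : e.symm b < ⟨y, hy⟩ := (hlt (e.symm b) ⟨y, hy⟩).2 hby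
        exact absurd h2 (not_le.2 (e.symm_apply_lt.1 h3))
  obtain ⟨a', ha, haY, hg⟩ := hD X Y hclub
  obtain ⟨a, rfl⟩ : ∃ x : Elt Ω, x.1 = a' := ⟨⟨a', ha⟩, rfl⟩
  refine ⟨e a, ?_, (hY a).1 haY⟩
  change T ∩ Iio (e a) = {β | β < e a ∧ Rel EZ (e.symm (e a)).1 (e.symm β).1 S}
  rw [e.symm_apply_apply]
  ext β
  rw [mem_inter_iff, mem_Iio, mem_ofPred_eq, and_comm]
  refine and_congr_right fun hβ => ?_
  have h1 : Rel EZ (e.symm β).1 a.1 L := (hlt (e.symm β) a).1 (e.symm_apply_lt.2 hβ)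
  have h2 := hg _ (e.symm β).2 h1
  rw [← h2]
  have h3 := hX (e.symm β)
  rw [e.apply_symm_apply] at h3
  exact h3.symm

end Pool.Agent.H30C
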