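import Pool.Agent.Lib.H30C.ZOm
import Pool.Agent.H85.SelIndepDefs

/-!
# Martin's axiom in the universe of sets, from its first-order form
-/

set_option autoImplicit false

open Set Function Cardinal

namespace Pool.Agent.H30C

open Pool.Agent.H5Z Pool.Agent.Lib.H45Osc Pool.Agent.H85.Sel

/-- A well-order of type `ω₁` maps onto each nonempty type of cardinality at most `ℵ₁`. -/
theorem exists_surj {W : Type 1} [LinearOrder W] [WellFoundedLT W] (hW : IsOmega1 W) (X : Type)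
    [Nonempty X] (hX : #X ≤ ℵ₁) : ∃ f : W → X, Surjective f := by
  have h1 : (ℵ₁ : Cardinal.{1}) ≤ #W := by
    have h2 : ℵ₀ < #W := by
      rw [← not_le]
      intro h
      apply hW.not_countable
      rw [← Cardinal.le_aleph0_iff_set_countable, Cardinal.mk_univ]
      exact h
    have h3 := Order.succ_le_of_lt h2
    rwa [Cardinal.succ_aleph0] at h3
  have h4 : Cardinal.lift.{1} #X ≤ Cardinal.lift.{0} #W := by
    rw [Cardinal.lift_uzero]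
    refine le_trans ?_ h1
    have h5 : Cardinal.lift.{1} #X ≤ Cardinal.lift.{1} ℵ₁ := Cardinal.lift_le.2 hX
    simpa using h5
  obtain ⟨g⟩ := Cardinal.lift_mk_le'.1 h4
  exact ⟨invFun g, invFun_surjective g.injective⟩

/-- `MA_{ℵ₁}` for posets of cardinality at most `ℵ₁` -/
theorem small_ma (h : MAIn EZ) (P : Type) [Preorder P] [Nonempty P] (hP : #P ≤ ℵ₁)
    (hccc : PosetCCC P) (I : Type) [Nonempty I] (hI : #I ≤ ℵ₁) (D : I → Set P)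
    (hD : ∀ i, ∀ p, ∃ q ∈ D i, q ≤ p) :
    ∃ G : Set P, G.Nonempty ∧ (∀ a ∈ G, ∀ b, a ≤ b → b ∈ G) ∧
        (∀ a ∈ G, ∀ b ∈ G, ∃ r ∈ G, r ≤ a ∧ r ≤ b) ∧ ∀ i, (G ∩ D i).Nonempty := by
  obtain ⟨w, Ω, L, hw, hO, hMA⟩ := h
  obtain ⟨i, hlt, hwf, hO1⟩ := exists_order hw hO
  obtain ⟨π, hπ⟩ := exists_surj hO1 P hP
  obtain ⟨σ, hσ⟩ := exists_surj hO1 I hI
  have hR : ∀ x y : Elt Ω, Rel EZ x.1 y.1 (ZFSet.pairSep (fun a b => ∃ (ha : a ∈ Ω) (hb : b ∈ Ω),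
      π ⟨a, ha⟩ ≤ π ⟨b, hb⟩) Ω Ω) ↔ π x ≤ π y := by
    intro x y
    rw [relZ_iff, pair_pairSep]
    exact ⟨fun h => h.2.2.2.2, fun h => ⟨x.2, y.2, x.2, y.2, h⟩⟩
  have hDD : ∀ x y : Elt Ω, Rel EZ x.1 y.1 (ZFSet.pairSep (fun a b => ∃ (ha : a ∈ Ω) (hb : b ∈ Ω),
      π ⟨b, hb⟩ ∈ D (σ ⟨a, ha⟩)) Ω Ω) ↔ π y ∈ D (σ x) := by
    intro x y
    rw [relZ_iff, pair_pairSep]
    exact ⟨fun h => h.2.2.2.2, fun h => ⟨x.2, y.2, x.2, y.2, h⟩⟩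
  set R := ZFSet.pairSep (fun a b => ∃ (ha : a ∈ Ω) (hb : b ∈ Ω), π ⟨a, ha⟩ ≤ π ⟨b, hb⟩) Ω Ω
  set DD := ZFSet.pairSep (fun a b => ∃ (ha : a ∈ Ω) (hb : b ∈ Ω), π ⟨b, hb⟩ ∈ D (σ ⟨a, ha⟩)) Ω Ω
  have hpre : IsPreIn EZ Ω R := by
    refine ⟨fun x hx => (hR ⟨x, hx⟩ ⟨x, hx⟩).2 le_rfl, ?_⟩
    intro x hx y hy z hz h1 h2
    exact (hR ⟨x, hx⟩ ⟨z, hz⟩).2 (((hR ⟨x, hx⟩ ⟨y, hy⟩).1 h1).trans ((hR ⟨y, hy⟩ ⟨z, hz⟩).1 h2))
  have hcccR : IsCccIn EZ Ω L R := by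
    intro A hA
    have hinj : InjOn π {x : Elt Ω | x.1 ∈ A} := by
      intro x hx y hy hxy
      by_contra hne
      refine hA x.1 x.2 y.1 y.2 hx hy (fun he => hne (Subtype.ext he)) ⟨x.1, x.2, ?_, ?_⟩
      · exact (hR x x).2 le_rfl
      · exact (hR x y).2 hxy.le
    have hc : (π '' {x : Elt Ω | x.1 ∈ A}).Countable := by
      refine hccc _ ?_
      rintro _ ⟨x, hx, rfl⟩ _ ⟨y, hy, rfl⟩ hne ⟨r, h1, h2⟩
      obtain ⟨z, rfl⟩ := hπ r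
      exact hA x.1 x.2 y.1 y.2 hx hy (fun he => hne (by rw [Subtype.ext he]))
        ⟨z.1, z.2, (hR z x).2 h1, (hR z y).2 h2⟩
    have hc' := Set.countable_of_injective_of_countable_image hinj hc
    obtain ⟨b, hb⟩ := hO1.exists_gt hc'
    exact ⟨b.1, b.2, fun x hx hxA => (hlt ⟨x, hx⟩ b).1 (hb ⟨x, hx⟩ hxA)⟩
  have hden : IsDenseIn EZ Ω R DD := by
    intro i' hi' x hx
    obtain ⟨q, hq, hqx⟩ := hD (σ ⟨i', hi'⟩) (π ⟨x, hx⟩)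
    obtain ⟨y, rfl⟩ := hπ q
    exact ⟨y.1, y.2, (hDD ⟨i', hi'⟩ y).2 hq, (hR y ⟨x, hx⟩).2 hqx⟩
  obtain ⟨G, hG1, hG2, hG3⟩ := hMA R DD hpre hcccR hden
  refine ⟨{p | ∃ y : Elt Ω, y.1 ∈ G ∧ π y ≤ p}, ?_, ?_, ?_, ?_⟩
  · obtain ⟨x⟩ := hO1.nonempty
    obtain ⟨y, hy, hyG, -⟩ := hG3 x.1 x.2
    exact ⟨π ⟨y, hy⟩, ⟨y, hy⟩, hyG, le_rfl⟩
  · rintro a ⟨y, hy, hya⟩ b hab
    exact ⟨y, hy, hya.trans hab⟩
  · rintro a ⟨y, hy, hya⟩ b ⟨z, hz, hzb⟩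
    obtain ⟨v, hv, hvG, h1, h2⟩ := hG2 y.1 y.2 z.1 z.2 hy hz
    refine ⟨π ⟨v, hv⟩, ⟨⟨v, hv⟩, hvG, le_rfl⟩, ?_, ?_⟩
    · exact ((hR ⟨v, hv⟩ y).1 h1).trans hya
    · exact ((hR ⟨v, hv⟩ z).1 h2).trans hzb
  · intro j
    obtain ⟨x, rfl⟩ := hσ j
    obtain ⟨y, hy, hyG, h1⟩ := hG3 x.1 x.2
    exact ⟨π ⟨y, hy⟩, ⟨⟨y, hy⟩, hyG, le_rfl⟩, (hDD x ⟨y, hy⟩).1 h1⟩

/-- the stages of the closure of a point -/
def lsStage {P I : Type} (c : P → P → P) (d : I → P → P) (p0 : P) : ℕ → Set P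
  | 0 => {p0}
  | n + 1 => lsStage c d p0 n ∪ ((fun x : P × P => c x.1 x.2) '' (lsStage c d p0 n ×ˢ lsStage c d p0 n) ∪
      (fun x : I × P => d x.1 x.2) '' ((Set.univ : Set I) ×ˢ lsStage c d p0 n))

theorem mk_lsStage {P I : Type} (c : P → P → P) (d : I → P → P) (p0 : P) (hI : #I ≤ ℵ₁) (n : ℕ) :
    #(lsStage c d p0 n) ≤ ℵ₁ := by
  have h0 : (ℵ₀ : Cardinal.{0}) ≤ ℵ₁ := aleph0_le_aleph 1
  induction n with
  | zero =>
    unfold lsStage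
    rw [mk_singleton]
    exact one_le_aleph0.trans h0
  | succ n ih =>
    unfold lsStage
    refine (mk_union_le _ _).trans (add_le_of_le h0 ih ((mk_union_le _ _).trans
      (add_le_of_le h0 (mk_image_le.trans ?_) (mk_image_le.trans ?_))))
    · rw [mk_setProd]
      exact mul_le_of_le h0 ih ih
    · rw [mk_setProd, mk_univ]
      exact mul_le_of_le h0 hI ih

theorem lsStage_mono {P I : Type} (c : P → P → P) (d : I → P → P) (p0 : P) :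
    Monotone (lsStage c d p0) := by
  refine monotone_nat_of_le_succ fun n => ?_
  change lsStage c d p0 n ⊆ lsStage c d p0 (n + 1)
  rw [lsStage]
  exact subset_union_left

/-- Martin's axiom from its first-order form. -/
theorem ma_of_in (h : MAIn EZ) : MartinAxiomAlephOne := by
  intro P _ _ hccc I hI D hD
  classical
  obtain ⟨p0⟩ := (inferInstance : Nonempty P)
  -- choice of witnesses
  have hc : ∀ a b : P, ∃ r, Compat a b → r ≤ a ∧ r ≤ b := by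
    intro a b
    by_cases hab : Compat a b
    · obtain ⟨r, hr⟩ := hab
      exact ⟨r, fun _ => hr⟩
    · exact ⟨a, fun h => absurd h hab⟩
  choose c hc using hc
  let D' : Option I → Set P := fun o => match o with
    | none => univ
    | some i => D i
  have hD' : ∀ i, ∀ p, ∃ q ∈ D' i, q ≤ p := by
    intro i p
    cases i with
    | none => exact ⟨p, trivial, le_rfl⟩
    | some i => exact hD i p
  choose d hd1 hd2 using hD'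
  have hI' : #(Option I) ≤ ℵ₁ := by
    rw [mk_option]
    exact add_le_of_le (aleph0_le_aleph 1) hI (one_le_aleph0.trans (aleph0_le_aleph 1))
  let Q : Set P := ⋃ n, lsStage c d p0 n
  have hQ : #Q ≤ ℵ₁ := by
    refine (mk_iUnion_le_sum_mk).trans ((sum_le_mk_mul_iSup _).trans ?_)
    refine mul_le_of_le (aleph0_le_aleph 1) ?_ (ciSup_le' fun n => mk_lsStage c d p0 hI' n)
    rw [mk_nat]
    exact aleph0_le_aleph 1
  have hQc : ∀ a ∈ Q, ∀ b ∈ Q, c a b ∈ Q := by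
    intro a ha b hb
    obtain ⟨n, hn⟩ := mem_iUnion.1 ha
    obtain ⟨m, hm⟩ := mem_iUnion.1 hb
    refine mem_iUnion.2 ⟨max n m + 1, ?_⟩
    rw [lsStage]
    exact Or.inr (Or.inl ⟨(a, b), ⟨lsStage_mono c d p0 (le_max_left n m) hn,
      lsStage_mono c d p0 (le_max_right n m) hm⟩, rfl⟩)
  have hQd : ∀ i, ∀ a ∈ Q, d i a ∈ Q := by
    intro i a ha
    obtain ⟨n, hn⟩ := mem_iUnion.1 ha
    refine mem_iUnion.2 ⟨n + 1, ?_⟩
    rw [lsStage]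
    exact Or.inr (Or.inr ⟨(i, a), ⟨mem_univ _, hn⟩, rfl⟩)
  have hp0 : p0 ∈ Q := mem_iUnion.2 ⟨0, rfl⟩
  haveI : Nonempty Q := ⟨⟨p0, hp0⟩⟩
  have hQccc : PosetCCC Q := by
    intro A hA
    have h1 : ((fun x : Q => x.1) '' A).Countable := by
      refine hccc _ ?_
      rintro _ ⟨x, hx, rfl⟩ _ ⟨y, hy, rfl⟩ hne hcomp
      have h2 := hc x.1 y.1 hcomp
      exact hA hx hy (fun he => hne (by rw [he])) ⟨⟨c x.1 y.1, hQc _ x.2 _ y.2⟩, h2.1, h2.2⟩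
    exact Set.countable_of_injective_of_countable_image Subtype.val_injective.injOn h1
  obtain ⟨G, hG0, hG1, hG2, hG3⟩ := small_ma h Q hQ hQccc (Option I) hI'
    (fun i => {q : Q | q.1 ∈ D' i}) (fun i p => ⟨⟨d i p.1, hQd i _ p.2⟩, hd1 i p.1, hd2 i p.1⟩)
  refine ⟨{p | ∃ q : Q, q ∈ G ∧ q.1 ≤ p}, ?_, ?_, ?_, ?_⟩
  · obtain ⟨q, hq⟩ := hG0
    exact ⟨q.1, q, hq, le_rfl⟩
  · rintro a ⟨q, hq, hqa⟩ b hab
    exact ⟨q, hq, hqa.trans hab⟩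
  · rintro a ⟨q, hq, hqa⟩ b ⟨q', hq', hqb⟩
    obtain ⟨r, hr, h1, h2⟩ := hG2 q hq q' hq'
    exact ⟨r.1, ⟨r, hr, le_rfl⟩, le_trans h1 hqa, le_trans h2 hqb⟩
  · intro i
    obtain ⟨q, hq1, hq2⟩ := hG3 (some i)
    exact ⟨q.1, ⟨q, hq1, le_rfl⟩, hq2⟩

end Pool.Agent.H30C
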