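import Pool.Agent.Lib.H5Z.A1
import Pool.Agent.Lib.H30C.Defs
import Pool.Agent.Lib.H45Osc.Stat

/-!
# Well-orders of type `ω₁` in the universe of sets
-/

set_option autoImplicit false

open Set Function

namespace Pool.Agent.H30C

open Pool.Agent.H5Z Pool.Agent.Lib.H45Osc

/-- membership of sets -/
abbrev EZ : ZFSet.{0} → ZFSet.{0} → Prop := fun x y => x ∈ y

/-- the type of elements of a set -/
def Elt (Ω : ZFSet.{0}) : Type 1 := {x : ZFSet.{0} // x ∈ Ω}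

theorem relZ_iff (x y r : ZFSet.{0}) : Rel EZ x y r ↔ ZFSet.pair x y ∈ r := rel_iff x y r

theorem pair_pairSep (p : ZFSet.{0} → ZFSet.{0} → Prop) (a b x y : ZFSet.{0}) :
    ZFSet.pair a b ∈ ZFSet.pairSep p x y ↔ a ∈ x ∧ b ∈ y ∧ p a b := by
  rw [ZFSet.mem_pairSep]
  constructor
  · rintro ⟨a', ha', b', hb', h, hp⟩
    obtain ⟨rfl, rfl⟩ := ZFSet.pair_injective h
    exact ⟨ha', hb', hp⟩
  · rintro ⟨ha, hb, hp⟩
    exact ⟨a, ha, b, hb, rfl, hp⟩

/-- The order of the elements of `Ω` given by `L`, and its properties. -/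
theorem exists_order {w Ω L : ZFSet.{0}} (hw : IsOmega EZ w) (h : IsOm1In EZ w Ω L) :
    ∃ i : LinearOrder (Elt Ω), (∀ x y : Elt Ω, i.lt x y ↔ Rel EZ x.1 y.1 L) ∧
      @WellFoundedLT (Elt Ω) i.toLT ∧ @IsOmega1 (Elt Ω) i := by
  classical
  have hmem := isOmega_iff w hw
  let r : Elt Ω → Elt Ω → Prop := fun x y => Rel EZ x.1 y.1 L
  haveI : IsStrictTotalOrder (Elt Ω) r :=
    { irrefl := fun x => h.irr x.1 x.2
      trans := fun x y z => h.trans x.1 x.2 y.1 y.2 z.1 z.2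
      trichotomous := fun x y h1 h2 => by
        by_contra hne
        rcases h.tri x.1 x.2 y.1 y.2 (fun he => hne (Subtype.ext he)) with h3 | h3
        · exact h1 h3
        · exact h2 h3 }
  let i : LinearOrder (Elt Ω) := linearOrderOfSTO r
  have hlt : ∀ x y : Elt Ω, i.lt x y ↔ Rel EZ x.1 y.1 L := fun x y => Iff.rfl
  refine ⟨i, hlt, ?_, ?_⟩
  · have hwf : WellFounded r := by
      rw [WellFounded.wellFounded_iff_has_min]
      rintro s ⟨x, hx⟩
      obtain ⟨y, hy, hyA, hmin⟩ := h.wf (ZFSet.sep (fun z => ∃ hz : z ∈ Ω, (⟨z, hz⟩ : Elt Ω) ∈ s) Ω)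
        x.1 x.2 (ZFSet.mem_sep.2 ⟨x.2, x.2, hx⟩)
      obtain ⟨-, hy1, hy2⟩ := ZFSet.mem_sep.1 hyA
      refine ⟨⟨y, hy⟩, hy2, fun z hz hzy => ?_⟩
      exact hmin z.1 z.2 (ZFSet.mem_sep.2 ⟨z.2, z.2, hz⟩) hzy
    exact ⟨hwf⟩
  · refine @IsOmega1.mk (Elt Ω) i ?_ ?_
    · intro x
      obtain ⟨f, hf, hcov⟩ := h.init x.1 x.2
      have h1 : {y : Elt Ω | Rel EZ y.1 x.1 L}.Countable := by
        have h2 : {y : Elt Ω | Rel EZ y.1 x.1 L} ⊆ ⋃ n : ℕ, {y : Elt Ω | Rel EZ (zn n) y.1 f} := by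
          intro y hy
          obtain ⟨n, hn, hny⟩ := hcov y.1 y.2 hy
          obtain ⟨m, rfl⟩ := (hmem n).1 hn
          exact mem_iUnion.2 ⟨m, hny⟩
        refine Set.Countable.mono h2 (Set.countable_iUnion fun n => ?_)
        refine Set.Subsingleton.countable fun y hy z hz => ?_
        exact Subtype.ext (hf (zn n) ((hmem _).2 ⟨n, rfl⟩) y.1 y.2 z.1 z.2 hy hz)
      exact h1
    · intro hc
      rcases Set.eq_empty_or_nonempty (univ : Set (Elt Ω)) with he | hne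
      · -- Ω is empty: contradiction with `bdd`
        obtain ⟨δ, hδ, -⟩ := h.bdd ∅ (fun n _ y _ z _ h1 _ => by
          rw [relZ_iff] at h1
          exact absurd h1 (ZFSet.notMem_empty _))
        exact (Set.eq_empty_iff_forall_notMem.1 he ⟨δ, hδ⟩) (mem_univ _)
      · obtain ⟨g, hg⟩ := hc.exists_eq_range hne
        obtain ⟨δ, hδ, hb⟩ := h.bdd (ZFSet.pairSep (fun a b => ∃ n : ℕ, a = zn n ∧ b = (g n).1) w Ω)
          (fun n _ y _ z _ h1 h2 => by
            rw [relZ_iff, pair_pairSep] at h1 h2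
            obtain ⟨-, -, m, rfl, rfl⟩ := h1
            obtain ⟨-, -, m', hm', rfl⟩ := h2
            rw [zn_inj hm'])
        have h3 : (⟨δ, hδ⟩ : Elt Ω) ∈ range g := by rw [← hg]; exact mem_univ _
        obtain ⟨n, hn⟩ := h3
        have h4 := hb (zn n) ((hmem _).2 ⟨n, rfl⟩) δ hδ (by
          rw [relZ_iff, pair_pairSep]
          exact ⟨(hmem _).2 ⟨n, rfl⟩, hδ, n, rfl, by rw [hn]⟩)
        exact h.irr δ hδ h4

end Pool.Agent.H30C
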